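import Mathlib

set_option autoImplicit false
set_option linter.unusedSectionVars false
set_option linter.unusedTactic false

namespace Pool.Agent.Results.MP_1465e7_co.UniversalExtension

open Set

/-- Two flags (maximal chains) are adjacent when they differ in exactly one face. -/
def FlagAdj {α : Type} [PartialOrder α] (A B : Flag α) : Prop :=
  ((A : Set α) \ B).ncard = 1 ∧ ((B : Set α) \ A).ncard = 1

/-- An abstract polytope of rank `n`. The rank function is shifted by one: the least face has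
`rk = 0`, vertices have `rk = 1`, facets have `rk = n`, the greatest face has `rk = n + 1`.
Every flag has exactly one face of each rank; the diamond condition and strong
flag-connectedness hold. (Polytopes of finite rank are countable, so `Face : Type` is no loss.) -/
structure Polytope (n : ℕ) where
  Face : Type
  [ord : PartialOrder Face]
  [bdd : BoundedOrder Face]
  rk : Face → ℕ
  rk_strictMono : StrictMono rk
  flag_ranks : ∀ A : Flag Face, rk '' (A : Set Face) = Set.Iic (n + 1)
  diamond : ∀ F G : Face, F < G → rk G = rk F + 2 → (Set.Ioo F G).ncard = 2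
  connected : ∀ A B : Flag Face, Relation.ReflTransGen
    (fun C D : Flag Face => FlagAdj C D ∧ (A : Set Face) ∩ B ⊆ D) A B

attribute [instance] Polytope.ord Polytope.bdd

/-- `U` covers `R` via `π`: a rank preserving, incidence preserving surjection mapping adjacent
flags to adjacent flags. -/
structure IsCovering {n : ℕ} (U R : Polytope n) (π : U.Face → R.Face) : Prop where
  surj : Function.Surjective π
  mono : Monotone π
  rank : ∀ x, R.rk (π x) = U.rk x
  adj : ∀ A B : Flag U.Face, FlagAdj A B → ∃ A' B' : Flag R.Face,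
    (A' : Set R.Face) = π '' A ∧ (B' : Set R.Face) = π '' B ∧ FlagAdj A' B'

/-- The orbit relation of the automorphism group of the poset `α` on the flags of `α`. -/
@[instance_reducible]
def flagOrbits (α : Type) [PartialOrder α] : Setoid (Flag α) where
  r := fun A B => ∃ g : α ≃o α, g '' (A : Set α) = B
  iseqv := by
    refine ⟨fun A => ⟨OrderIso.refl _, by simp⟩, ?_, ?_⟩
    · rintro A B ⟨g, hg⟩
      refine ⟨g.symm, ?_⟩
      rw [← hg, ← Set.image_comp]
      simp
    · rintro A B C ⟨g, hg⟩ ⟨h, hh⟩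
      refine ⟨g.trans h, ?_⟩
      rw [← hh, ← hg, ← Set.image_comp]
      rfl

/-- `P` is a `k`-orbit polytope: the automorphism group has exactly `k` orbits on flags. -/
def IsKOrbit {n : ℕ} (k : ℕ) (P : Polytope n) : Prop :=
  0 < k ∧ Nat.card (Quotient (flagOrbits P.Face)) = k

/-- `R` is a `k`-orbit extension of `P`: a `k`-orbit polytope all of whose facets are
isomorphic to `P`. -/
structure IsKOrbitExtension {n : ℕ} (k : ℕ) (P : Polytope n) (R : Polytope (n + 1)) : Prop where
  facets : ∀ F : R.Face, R.rk F = n + 1 → Nonempty (Set.Iic F ≃o P.Face)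
  orbits : IsKOrbit k R

/-- `U` is a universal `k`-orbit extension of `P`: a `k`-orbit extension covering every
`k`-orbit extension of `P`. -/
structure IsUniversalKOrbitExtension {n : ℕ} (k : ℕ) (P : Polytope n) (U : Polytope (n + 1)) :
    Prop where
  extension : IsKOrbitExtension k P U
  covers : ∀ R : Polytope (n + 1), IsKOrbitExtension k P R →
    ∃ π : U.Face → R.Face, IsCovering U R π

/-- The isomorphism `φ` between the faces `K` and `K'` of `α` (i.e. between the sections of all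
faces below or equal to `K` and `K'`) is the restriction of an automorphism of `α`. For `K = K'`
the induced isomorphisms form a subgroup `Γ_K` of the automorphism group of `K`. -/
def Induced {α : Type} [PartialOrder α] {K K' : α} (φ : Set.Iic K ≃o Set.Iic K') : Prop :=
  ∃ g : α ≃o α, ∀ x : Set.Iic K, g x = φ x

/-- The isomorphism `φ` from `K` to `K'` conjugates `Γ_K` onto `Γ_K'`: an automorphism `a` of `K`
belongs to `Γ_K` if and only if `φ a φ⁻¹` belongs to `Γ_K'`. For `K = K'` this says that `φ` lies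
in the normaliser `N(Γ_K)` of `Γ_K` in the automorphism group of `K`. -/
def Conjugates {α : Type} [PartialOrder α] {K K' : α} (φ : Set.Iic K ≃o Set.Iic K') : Prop :=
  ∀ a : Set.Iic K ≃o Set.Iic K, Induced a ↔ Induced ((φ.symm.trans a).trans φ)

/-- The group `N(Γ_K) / Γ_K` has no element of order two. -/
def NoInvolution {α : Type} [PartialOrder α] (K : α) : Prop :=
  ∀ φ : Set.Iic K ≃o Set.Iic K, Conjugates φ → Induced (φ.trans φ) → Induced φ

/-- Some isomorphism from `K` to `K'` conjugates `Γ_K` onto `Γ_K'`. -/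
def Conjugate {α : Type} [PartialOrder α] (K K' : α) : Prop :=
  ∃ φ : Set.Iic K ≃o Set.Iic K', Conjugates φ

/-- `K` and `K'` lie in the same orbit of the automorphism group of `α`. -/
def SameOrbit {α : Type} [PartialOrder α] (K K' : α) : Prop :=
  ∃ g : α ≃o α, g K = K'

section ranked

variable {α : Type} [PartialOrder α] [BoundedOrder α] {rk : α → ℕ} {n : ℕ}

lemma flag_unique (hm : StrictMono rk) (A : Flag α) {x y : α} (hx : x ∈ A) (hy : y ∈ A)
    (h : rk x = rk y) : x = y := by
  rcases A.le_or_le hx hy with h1 | h1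
  · rcases h1.eq_or_lt with h2 | h2
    · exact h2
    · exact absurd (hm h2) (by omega)
  · rcases h1.eq_or_lt with h2 | h2
    · exact h2.symm
    · exact absurd (hm h2) (by omega)

lemma flag_injOn (hm : StrictMono rk) (A : Flag α) : Set.InjOn rk (A : Set α) :=
  fun _ hx _ hy h => flag_unique hm A hx hy h

lemma flag_finite (hm : StrictMono rk) (hf : ∀ A : Flag α, rk '' (A : Set α) = Set.Iic (n + 1))
    (A : Flag α) : (A : Set α).Finite := by
  apply Set.Finite.of_finite_image _ (flag_injOn hm A)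
  rw [hf A]; exact Set.finite_Iic _

lemma flag_ncard (hm : StrictMono rk) (hf : ∀ A : Flag α, rk '' (A : Set α) = Set.Iic (n + 1))
    (A : Flag α) : (A : Set α).ncard = n + 2 := by
  rw [← (flag_injOn hm A).ncard_image, hf A]
  rw [Set.ncard_eq_toFinset_card']
  simp

lemma flag_exists (hf : ∀ A : Flag α, rk '' (A : Set α) = Set.Iic (n + 1))
    (A : Flag α) {i : ℕ} (hi : i ≤ n + 1) : ∃ x ∈ A, rk x = i := by
  have : i ∈ rk '' (A : Set α) := by rw [hf A]; exact hi
  obtain ⟨x, hx, h⟩ := this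
  exact ⟨x, hx, h⟩

lemma flag_lt (hm : StrictMono rk) (A : Flag α) {x y : α} (hx : x ∈ A) (hy : y ∈ A)
    (h : rk x < rk y) : x < y := by
  rcases A.le_or_le hx hy with h1 | h1
  · rcases h1.eq_or_lt with h2 | h2
    · subst h2; omega
    · exact h2
  · rcases h1.eq_or_lt with h2 | h2
    · subst h2; omega
    · exact absurd (hm h2) (by omega)

lemma flag_le (hm : StrictMono rk) (A : Flag α) {x y : α} (hx : x ∈ A) (hy : y ∈ A)
    (h : rk x ≤ rk y) : x ≤ y := by
  rcases h.lt_or_eq with h1 | h1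
  · exact (flag_lt hm A hx hy h1).le
  · exact (flag_unique hm A hx hy h1).le

lemma flag_eq_of_subset {A B : Flag α} (h : (A : Set α) ⊆ B) : A = B := by
  apply SetLike.coe_injective
  exact A.max_chain' B.Chain' h

/-- a chain meeting every rank is a flag -/
lemma chain_is_flag (hm : StrictMono rk)
    (hf : ∀ A : Flag α, rk '' (A : Set α) = Set.Iic (n + 1)) {c : Set α}
    (hc : IsChain (· ≤ ·) c) (hr : Set.Iic (n + 1) ⊆ rk '' c) :
    ∃ A : Flag α, (A : Set α) = c := by
  obtain ⟨A, hA⟩ := hc.exists_subset_flag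
  refine ⟨A, Set.Subset.antisymm ?_ hA⟩
  intro x hx
  have h1 : rk x ∈ Set.Iic (n + 1) := by rw [← hf A]; exact ⟨x, hx, rfl⟩
  obtain ⟨y, hy, hxy⟩ := hr h1
  have := flag_unique hm A (hA hy) hx hxy
  rwa [← this]

/-- exchanging a single face -/
lemma exchange (hm : StrictMono rk)
    (hf : ∀ A : Flag α, rk '' (A : Set α) = Set.Iic (n + 1)) (A : Flag α) {x y F G : α}
    (hx : x ∈ A) (hF : F ∈ A) (hG : G ∈ A) (hFx : rk x = rk F + 1) (hGx : rk G = rk x + 1)
    (hFy : F < y) (hyG : y < G) (hxy : x ≠ y) :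
    ∃ B : Flag α, (B : Set α) = insert y ((A : Set α) \ {x}) ∧ FlagAdj A B ∧ y ∉ A := by
  have hry : rk y = rk x := by
    have := hm hFy; have := hm hyG; omega
  have hyA : y ∉ A := fun h => hxy (flag_unique hm A hx h hry.symm)
  have hc : IsChain (· ≤ ·) (insert y ((A : Set α) \ {x})) := by
    apply (A.chain_le.mono Set.sdiff_subset).insert
    intro b hb _
    have hbA : b ∈ A := hb.1
    have hbx : rk b ≠ rk x := fun h => hb.2 (flag_unique hm A hbA hx h)
    rcases lt_or_gt_of_ne hbx with h | h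
    · right
      exact (flag_le hm A hbA hF (by omega)).trans hFy.le
    · left
      exact hyG.le.trans (flag_le hm A hG hbA (by omega))
  obtain ⟨B, hB⟩ := chain_is_flag hm hf hc (by
    rw [← hf A]
    rintro _ ⟨b, hb, rfl⟩
    by_cases h : b = x
    · exact ⟨y, Set.mem_insert _ _, by rw [h]; exact hry⟩
    · exact ⟨b, Set.mem_insert_of_mem _ ⟨hb, h⟩, rfl⟩)
  refine ⟨B, hB, ⟨?_, ?_⟩, hyA⟩
  · have : (A : Set α) \ B = {x} := by
      rw [hB]; ext b
      constructor
      · rintro ⟨h1, h2⟩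
        by_contra h3
        exact h2 (Set.mem_insert_of_mem _ ⟨h1, h3⟩)
      · rintro rfl
        refine ⟨hx, ?_⟩
        rintro (h | h)
        · exact hxy h
        · exact h.2 rfl
    rw [this]; exact Set.ncard_singleton _
  · have : (B : Set α) \ A = {y} := by
      rw [hB]; ext b
      constructor
      · rintro ⟨h1 | h1, h2⟩
        · exact h1
        · exact (h2 h1.1).elim
      · rintro rfl
        exact ⟨Set.mem_insert _ _, hyA⟩
    rw [this]; exact Set.ncard_singleton _

/-- If all sections of rank at least two are connected, the poset is strongly flag-connected. -/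
theorem connected_of_sections (hm : StrictMono rk)
    (hf : ∀ A : Flag α, rk '' (A : Set α) = Set.Iic (n + 1))
    (hs : ∀ F G : α, F < G → rk F + 3 ≤ rk G → ∀ H ∈ Set.Ioo F G, ∀ K ∈ Set.Ioo F G,
      Relation.ReflTransGen (fun a b => b ∈ Set.Ioo F G ∧ (a ≤ b ∨ b ≤ a)) H K) :
    ∀ A B : Flag α, Relation.ReflTransGen
      (fun C D : Flag α => FlagAdj C D ∧ (A : Set α) ∩ B ⊆ D) A B := by
  have key : ∀ k : ℕ, ∀ A B : Flag α, n + 2 - ((A : Set α) ∩ B).ncard = k →
      Relation.ReflTransGen (fun C D : Flag α => FlagAdj C D ∧ (A : Set α) ∩ B ⊆ D) A B := by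
    intro k
    induction k using Nat.strong_induction_on with
    | _ k ih =>
    intro A B hk
    by_cases hAB : A = B
    · subst hAB; exact Relation.ReflTransGen.refl
    have hAfin := flag_finite hm hf A
    have hAcard := flag_ncard hm hf A
    -- for flags sharing more, use the induction hypothesis
    have ih' : ∀ C D : Flag α, ((A : Set α) ∩ B).ncard < ((C : Set α) ∩ D).ncard →
        (A : Set α) ∩ B ⊆ (C : Set α) ∩ D →
        Relation.ReflTransGen (fun X Y : Flag α => FlagAdj X Y ∧ (A : Set α) ∩ B ⊆ Y) C D := by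
      intro C D h1 h2
      have h3 : ((A : Set α) ∩ B).ncard ≤ n + 2 := by
        rw [← hAcard]; exact Set.ncard_le_ncard Set.inter_subset_left hAfin
      have h4 : ((C : Set α) ∩ D).ncard ≤ n + 2 := by
        rw [← flag_ncard hm hf C]
        exact Set.ncard_le_ncard Set.inter_subset_left (flag_finite hm hf C)
      have := ih (n + 2 - ((C : Set α) ∩ D).ncard) (by omega) C D rfl
      refine (Relation.ReflTransGen.mono ?_) C D this
      intro X Y h
      exact ⟨h.1, h2.trans h.2⟩
    -- the ranks where A and B differ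
    have hex : ∃ i, i ≤ n + 1 ∧ ∃ x ∈ A, rk x = i ∧ x ∉ B := by
      by_contra hcon
      push Not at hcon
      apply hAB
      apply flag_eq_of_subset
      intro x hx
      have : rk x ∈ Set.Iic (n + 1) := by rw [← hf A]; exact ⟨x, hx, rfl⟩
      exact hcon (rk x) this x hx rfl
    classical
    obtain ⟨hi1, x, hxA, hxi, hxB⟩ := Nat.find_spec hex
    set i := Nat.find hex with hi
    have himin : ∀ y ∈ A, rk y < i → y ∈ B := by
      intro y hy hyi
      by_contra hyB
      have h1 : rk y ≤ n + 1 := by omega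
      exact Nat.find_min hex hyi ⟨h1, y, hy, rfl, hyB⟩
    have hbotrk : rk (⊥ : α) < i := by
      have hne : (⊥ : α) ≠ x := fun h => hxB (h ▸ B.bot_mem)
      rw [← hxi]; exact hm (lt_of_le_of_ne bot_le hne)
    have hi0 : 0 < i := by omega
    obtain ⟨F, hFA, hFi⟩ := flag_exists hf A (show i - 1 ≤ n + 1 by omega)
    have hFB : F ∈ B := himin F hFA (by omega)
    -- the next common rank
    have hex2 : ∃ j, i < j ∧ ∃ y ∈ A, rk y = j ∧ y ∈ B := by
      refine ⟨rk (⊤ : α), ?_, ⊤, A.top_mem, rfl, B.top_mem⟩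
      have hne : x ≠ (⊤ : α) := fun h => hxB (h ▸ B.top_mem)
      rw [← hxi]; exact hm (lt_of_le_of_ne le_top hne)
    obtain ⟨hij, G, hGA, hGj, hGB⟩ := Nat.find_spec hex2
    set j := Nat.find hex2 with hj
    have hjmin : ∀ y ∈ A, i < rk y → rk y < j → y ∉ B := by
      intro y hy h1 h2 h3
      exact Nat.find_min hex2 h2 ⟨h1, y, hy, rfl, h3⟩
    have hcommon : ∀ y ∈ (A : Set α) ∩ B, y ≤ F ∨ G ≤ y := by
      rintro y ⟨hy1, hy2⟩
      by_contra hcon
      rw [not_or] at hcon
      have h1 : rk F < rk y := by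
        by_contra h
        exact hcon.1 (flag_le hm A hy1 hFA (by omega))
      have h2 : rk y < rk G := by
        by_contra h
        exact hcon.2 (flag_le hm A hGA hy1 (by omega))
      rcases Nat.lt_or_ge i (rk y) with h3 | h3
      · exact hjmin y hy1 h3 (by omega) hy2
      · have h4 : rk y = rk x := by omega
        exact hxB ((flag_unique hm A hy1 hxA h4) ▸ hy2)
    obtain ⟨y, hyB, hyi⟩ := flag_exists hf B hi1
    have hyA : y ∉ A := by
      intro h
      have : x = y := flag_unique hm A hxA h (by omega)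
      exact hxB (this ▸ hyB)
    have hxy : x ≠ y := fun h => hyA (h ▸ hxA)
    have hFx : F < x := flag_lt hm A hFA hxA (by omega)
    have hxG : x < G := flag_lt hm A hxA hGA (by omega)
    have hFy : F < y := flag_lt hm B hFB hyB (by omega)
    have hyG : y < G := flag_lt hm B hyB hGB (by omega)
    have hABfin : ((A : Set α) ∩ B).Finite := hAfin.subset Set.inter_subset_left
    -- extending the common part
    have hbig : ∀ C D : Flag α, (A : Set α) ∩ B ⊆ (C : Set α) ∩ D →
        (∃ z ∈ (C : Set α) ∩ D, z ∉ (A : Set α) ∩ B) →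
        ((A : Set α) ∩ B).ncard < ((C : Set α) ∩ D).ncard := by
      rintro C D h1 ⟨z, hz1, hz2⟩
      apply Set.ncard_lt_ncard
      · exact ⟨h1, fun h => hz2 (h hz1)⟩
      · exact (flag_finite hm hf C).subset Set.inter_subset_left
    rcases Nat.lt_or_ge j (i + 2) with hcase | hcase
    · -- a single exchange
      obtain ⟨C, hC, hadj, _⟩ := exchange hm hf A hxA hFA hGA (by omega) (by omega) hFy hyG hxy
      have hsub : (A : Set α) ∩ B ⊆ C := by
        rintro z ⟨hz1, hz2⟩
        rw [hC]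
        refine Set.mem_insert_of_mem _ ⟨hz1, ?_⟩
        intro h
        exact hxB (by rw [← (show z = x from h)]; exact hz2)
      have h1 : Relation.ReflTransGen (fun X Y : Flag α => FlagAdj X Y ∧ (A : Set α) ∩ B ⊆ Y) C B := by
        apply ih'
        · apply hbig
          · exact fun z hz => ⟨hsub hz, hz.2⟩
          · refine ⟨y, ⟨?_, hyB⟩, fun h => hyA h.1⟩
            rw [hC]; exact Set.mem_insert _ _
        · exact fun z hz => ⟨hsub hz, hz.2⟩
      exact Relation.ReflTransGen.head ⟨hadj, hsub⟩ h1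
    · -- use the connectivity of the section
      have hFG : F < G := hFx.trans hxG
      have hpath := hs F G hFG (by omega) x ⟨hFx, hxG⟩ y ⟨hFy, hyG⟩
      have claim : ∀ z, Relation.ReflTransGen
          (fun a b => b ∈ Set.Ioo F G ∧ (a ≤ b ∨ b ≤ a)) x z → z ∈ Set.Ioo F G ∧
          ∃ C : Flag α, z ∈ C ∧ (A : Set α) ∩ B ⊆ C ∧
          Relation.ReflTransGen (fun X Y : Flag α => FlagAdj X Y ∧ (A : Set α) ∩ B ⊆ Y) A C := by
        intro z hz
        induction hz with
        | refl => exact ⟨⟨hFx, hxG⟩, A, hxA, Set.inter_subset_left, Relation.ReflTransGen.refl⟩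
        | tail _ hbc ih2 =>
          rename_i b c _
          obtain ⟨hb, C, hbC, hsubC, hpC⟩ := ih2
          obtain ⟨hc, hcomp⟩ := hbc
          refine ⟨hc, ?_⟩
          have hchain : IsChain (· ≤ ·) (insert c (insert b ((A : Set α) ∩ B))) := by
            apply IsChain.insert
            · apply IsChain.insert
              · exact A.chain_le.mono Set.inter_subset_left
              · intro w hw _
                rcases hcommon w hw with h | h
                · exact Or.inr (h.trans hb.1.le)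
                · exact Or.inl (hb.2.le.trans h)
            · intro w hw _
              rcases hw with h | h
              · subst h
                exact hcomp.symm
              · rcases hcommon w h with h | h
                · exact Or.inr (h.trans hc.1.le)
                · exact Or.inl (hc.2.le.trans h)
          obtain ⟨D, hD⟩ := hchain.exists_subset_flag
          have hcD : c ∈ D := hD (Set.mem_insert _ _)
          have hbD : b ∈ D := hD (Set.mem_insert_of_mem _ (Set.mem_insert _ _))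
          have hsubD : (A : Set α) ∩ B ⊆ D := fun w hw =>
            hD (Set.mem_insert_of_mem _ (Set.mem_insert_of_mem _ hw))
          refine ⟨D, hcD, hsubD, hpC.trans ?_⟩
          apply ih'
          · apply hbig
            · exact fun w hw => ⟨hsubC hw, hsubD hw⟩
            · refine ⟨b, ⟨hbC, hbD⟩, fun h => ?_⟩
              rcases hcommon b h with h' | h'
              · exact absurd (hb.1.trans_le h') (lt_irrefl _)
              · exact absurd (hb.2.trans_le h') (lt_irrefl _)
          · exact fun w hw => ⟨hsubC hw, hsubD hw⟩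
      obtain ⟨_, C, hyC, hsubC, hpC⟩ := claim y hpath
      refine hpC.trans ?_
      apply ih'
      · apply hbig
        · exact fun w hw => ⟨hsubC hw, hw.2⟩
        · exact ⟨y, ⟨hyC, hyB⟩, fun h => hyA h.1⟩
      · exact fun w hw => ⟨hsubC hw, hw.2⟩
  intro A B
  exact key _ A B rfl


/-- a graded bounded poset of bounded rank: every flag meets every rank -/
theorem flag_ranks_of_graded (hm : StrictMono rk)
    (h1 : rk (⊤ : α) = n + 1)
    (hg : ∀ F G : α, F < G → rk F + 2 ≤ rk G → ∃ H, F < H ∧ H < G)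
    (h0 : rk (⊥ : α) = 0) :
    ∀ A : Flag α, rk '' (A : Set α) = Set.Iic (n + 1) := by
  intro A
  have hfinA : (A : Set α).Finite := by
    apply Set.Finite.of_finite_image _ (flag_injOn hm A)
    apply (Set.finite_Iic (n + 1)).subset
    rintro _ ⟨x, _, rfl⟩
    rw [Set.mem_Iic, ← h1]
    exact hm.monotone le_top
  apply Set.Subset.antisymm
  · rintro _ ⟨x, _, rfl⟩
    rw [Set.mem_Iic, ← h1]
    exact hm.monotone le_top
  · intro i hi
    by_contra hcon
    have hne : ∀ x ∈ A, rk x ≠ i := fun x hx h => hcon ⟨x, hx, h⟩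
    -- the largest element of rank below i
    obtain ⟨F, ⟨hFA, hFi⟩, hFmax⟩ := Set.exists_max_image {x | x ∈ A ∧ rk x < i} rk
      (hfinA.subset fun x hx => hx.1) ⟨⊥, A.bot_mem, by
        have := hne ⊥ A.bot_mem
        omega⟩
    obtain ⟨G, ⟨hGA, hGi⟩, hGmin⟩ := Set.exists_min_image {x | x ∈ A ∧ i < rk x} rk
      (hfinA.subset fun x hx => hx.1) ⟨⊤, A.top_mem, by
        have := hne ⊤ A.top_mem
        have h2 : i ≤ n + 1 := hi
        omega⟩
    have hFG : F < G := flag_lt hm A hFA hGA (by omega)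
    obtain ⟨H, hH1, hH2⟩ := hg F G hFG (by omega)
    have hHA : H ∈ A := by
      have hc : IsChain (· ≤ ·) (insert H (A : Set α)) := by
        apply A.chain_le.insert
        intro b hb _
        rcases Nat.lt_or_ge (rk b) i with h | h
        · exact Or.inr ((flag_le hm A hb hFA (hFmax b ⟨hb, h⟩)).trans hH1.le)
        · have : i < rk b := lt_of_le_of_ne h (Ne.symm (hne b hb))
          exact Or.inl (hH2.le.trans (flag_le hm A hGA hb (hGmin b ⟨hb, this⟩)))
      have := A.max_chain' hc (Set.subset_insert _ _)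
      rw [show (H ∈ A) = (H ∈ (A : Set α)) from rfl]
      have h2 : (A : Set α) = insert H (A : Set α) := this
      rw [h2]; exact Set.mem_insert _ _
    have hr1 := hm hH1
    have hr2 := hm hH2
    rcases lt_or_gt_of_ne (hne H hHA) with h | h
    · have := hFmax H ⟨hHA, h⟩; omega
    · have := hGmin H ⟨hHA, h⟩; omega

end ranked

section basics

variable {n : ℕ}

lemma rk_bot (P : Polytope n) : P.rk ⊥ = 0 := by
  obtain ⟨A, -⟩ := (IsChain.empty (r := (· ≤ ·)) (α := P.Face)).exists_subset_flag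
  obtain ⟨x, _, hx⟩ := flag_exists P.flag_ranks A (Nat.zero_le _)
  have := P.rk_strictMono.monotone (bot_le : (⊥ : P.Face) ≤ x)
  omega

lemma rk_top (P : Polytope n) : P.rk ⊤ = n + 1 := by
  obtain ⟨A, -⟩ := (IsChain.empty (r := (· ≤ ·)) (α := P.Face)).exists_subset_flag
  obtain ⟨x, _, hx⟩ := flag_exists P.flag_ranks A (le_refl _)
  have h1 := P.rk_strictMono.monotone (le_top : x ≤ ⊤)
  have h2 : P.rk ⊤ ∈ Set.Iic (n + 1) := by rw [← P.flag_ranks A]; exact ⟨⊤, A.top_mem, rfl⟩
  have h3 : P.rk ⊤ ≤ n + 1 := h2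
  omega

lemma rk_le (P : Polytope n) (x : P.Face) : P.rk x ≤ n + 1 := by
  rw [← rk_top P]; exact P.rk_strictMono.monotone le_top

lemma eq_top_of_rk (P : Polytope n) {x : P.Face} (h : P.rk x = n + 1) : x = ⊤ := by
  by_contra hne
  have := P.rk_strictMono (lt_of_le_of_ne le_top hne)
  rw [rk_top] at this; omega

lemma eq_bot_of_rk (P : Polytope n) {x : P.Face} (h : P.rk x = 0) : x = ⊥ := by
  by_contra hne
  have := P.rk_strictMono (lt_of_le_of_ne bot_le (Ne.symm hne))
  rw [rk_bot] at this; omega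

/-- description of an adjacent flag -/
lemma adj_desc (P : Polytope n) {A B : Flag P.Face} (h : FlagAdj A B) :
    ∃ x y F G : P.Face, x ∈ A ∧ x ∉ B ∧ y ∈ B ∧ y ∉ A ∧ (A : Set P.Face) \ B = {x} ∧
      (B : Set P.Face) = insert y ((A : Set P.Face) \ {x}) ∧
      F ∈ A ∧ G ∈ A ∧ P.rk x = P.rk F + 1 ∧ P.rk G = P.rk x + 1 ∧ F < y ∧ y < G := by
  obtain ⟨h1, h2⟩ := h
  obtain ⟨x, hx⟩ := Set.ncard_eq_one.mp h1
  obtain ⟨y, hy⟩ := Set.ncard_eq_one.mp h2
  have hx1 : x ∈ (A : Set P.Face) \ B := by rw [hx]; rfl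
  have hy1 : y ∈ (B : Set P.Face) \ A := by rw [hy]; rfl
  have hm := P.rk_strictMono
  have hf := P.flag_ranks
  have hA : ∀ z ∈ A, z ≠ x → z ∈ B := by
    intro z hz hzx
    by_contra hzB
    have : z ∈ (A : Set P.Face) \ B := ⟨hz, hzB⟩
    rw [hx] at this
    exact hzx this
  have hB : ∀ z ∈ B, z ≠ y → z ∈ A := by
    intro z hz hzy
    by_contra hzA
    have : z ∈ (B : Set P.Face) \ A := ⟨hz, hzA⟩
    rw [hy] at this
    exact hzy this
  have hrk : P.rk x = P.rk y := by
    obtain ⟨z, hz, hzx⟩ := flag_exists hf B (rk_le P x)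
    by_cases hzy : z = y
    · rw [← hzx, hzy]
    · have hzA := hB z hz hzy
      have : z = x := flag_unique hm A hzA hx1.1 hzx
      exact (hx1.2 (this ▸ hz)).elim
  have hxb : x ≠ ⊥ := fun h => hx1.2 (h ▸ B.bot_mem)
  have hxt : x ≠ ⊤ := fun h => hx1.2 (h ▸ B.top_mem)
  have hr1 : 0 < P.rk x := by
    rw [← rk_bot P]; exact hm (lt_of_le_of_ne bot_le (Ne.symm hxb))
  have hr2 : P.rk x < n + 1 := by
    rw [← rk_top P]; exact hm (lt_of_le_of_ne le_top hxt)
  obtain ⟨F, hF, hFr⟩ := flag_exists hf A (show P.rk x - 1 ≤ n + 1 by omega)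
  obtain ⟨G, hG, hGr⟩ := flag_exists hf A (show P.rk x + 1 ≤ n + 1 by omega)
  have hFB : F ∈ B := hA F hF (by rintro rfl; omega)
  have hGB : G ∈ B := hA G hG (by rintro rfl; omega)
  refine ⟨x, y, F, G, hx1.1, hx1.2, hy1.1, hy1.2, hx, ?_, hF, hG, by omega, by omega,
    flag_lt hm B hFB hy1.1 (by omega), flag_lt hm B hy1.1 hGB (by omega)⟩
  ext z
  constructor
  · intro hz
    by_cases hzy : z = y
    · rw [hzy]; exact Set.mem_insert _ _
    · refine Set.mem_insert_of_mem _ ⟨hB z hz hzy, ?_⟩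
      rintro rfl
      exact hx1.2 hz
  · rintro (hz | ⟨hz1, hz2⟩)
    · rw [hz]; exact hy1.1
    · exact hA z hz1 hz2


end basics

section diamonds

variable {n : ℕ}

lemma diamond_other (P : Polytope n) {F G x : P.Face} (hFG : F < G) (hr : P.rk G = P.rk F + 2) :
    ∃ y, F < y ∧ y < G ∧ y ≠ x := by
  have hcard := P.diamond F G hFG hr
  obtain ⟨y, hyI, hyx⟩ : ∃ y ∈ Set.Ioo F G, y ≠ x := by
    apply Set.exists_ne_of_one_lt_ncard
    omega
  exact ⟨y, hyI.1, hyI.2, hyx⟩

lemma diamond_unique (P : Polytope n) {F G x y z : P.Face} (hr : P.rk G = P.rk F + 2)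
    (hFx : F < x) (hxG : x < G) (hFy : F < y) (hyG : y < G) (hFz : F < z) (hzG : z < G)
    (hyx : y ≠ x) (hzx : z ≠ x) : y = z := by
  have hcard := P.diamond F G (hFx.trans hxG) hr
  by_contra hne
  have hsub : ({x, y, z} : Set P.Face) ⊆ Set.Ioo F G := by
    rintro w (rfl | rfl | rfl)
    · exact ⟨hFx, hxG⟩
    · exact ⟨hFy, hyG⟩
    · exact ⟨hFz, hzG⟩
  have h3 : ({x, y, z} : Set P.Face).ncard = 3 := by
    rw [Set.ncard_eq_three]
    exact ⟨x, y, z, hyx.symm, hzx.symm, hne, rfl⟩
  have h4 := Set.ncard_le_ncard hsub (Set.finite_of_ncard_ne_zero (by rw [hcard]; norm_num))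
  omega

/-- every chain extends to a flag, in particular every pair of comparable faces -/
lemma exists_flag_pair (P : Polytope n) {x y : P.Face} (h : x ≤ y) :
    ∃ A : Flag P.Face, x ∈ A ∧ y ∈ A := by
  have hc : IsChain (· ≤ ·) ({x, y} : Set P.Face) := by
    rintro a (rfl | rfl) b (rfl | rfl) _
    · exact Or.inl le_rfl
    · exact Or.inl h
    · exact Or.inr h
    · exact Or.inl le_rfl
  obtain ⟨A, hA⟩ := hc.exists_subset_flag
  exact ⟨A, hA (by simp), hA (by simp)⟩

lemma exists_flag (P : Polytope n) (x : P.Face) : ∃ A : Flag P.Face, x ∈ A := by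
  obtain ⟨A, hA, _⟩ := exists_flag_pair P (le_refl x)
  exact ⟨A, hA⟩

lemma exists_flag_triple (P : Polytope n) {x y z : P.Face} (h : x ≤ y) (h' : y ≤ z) :
    ∃ A : Flag P.Face, x ∈ A ∧ y ∈ A ∧ z ∈ A := by
  have h'' := h.trans h'
  have hc : IsChain (· ≤ ·) ({x, y, z} : Set P.Face) := by
    rintro a (rfl | rfl | rfl) b (rfl | rfl | rfl) _ <;>
      first | exact Or.inl (by assumption) | exact Or.inr (by assumption) | exact Or.inl le_rfl
  obtain ⟨A, hA⟩ := hc.exists_subset_flag
  exact ⟨A, hA (by simp), hA (by simp), hA (by simp)⟩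

/-- a strictly monotone map on the faces below `F` does not decrease the rank -/
lemma rk_le_of_strict {m : ℕ} (P : Polytope n) (R : Polytope m) (F : P.Face)
    (h : P.Face → R.Face) (hh : ∀ x y, x < y → y ≤ F → h x < h y) :
    ∀ x, x ≤ F → P.rk x ≤ R.rk (h x) := by
  have key : ∀ k : ℕ, ∀ x, x ≤ F → P.rk x = k → k ≤ R.rk (h x) := by
    intro k
    induction k with
    | zero => intro x _ _; exact Nat.zero_le _
    | succ k ih =>
      intro x hx hr
      obtain ⟨A, hA⟩ := exists_flag P x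
      obtain ⟨y, hy, hyr⟩ := flag_exists P.flag_ranks A
        (show k ≤ n + 1 by have := rk_le P x; omega)
      have hyx : y < x := flag_lt P.rk_strictMono A hy hA (by omega)
      have h1 := ih y (hyx.le.trans hx) hyr
      have h2 := R.rk_strictMono (hh y x hyx hx)
      omega
  exact fun x hx => key _ x hx rfl

lemma rk_aut (P : Polytope n) (g : P.Face ≃o P.Face) (x : P.Face) : P.rk (g x) = P.rk x := by
  apply le_antisymm
  · have := rk_le_of_strict P P ⊤ g.symm (fun x y h _ => g.symm.strictMono h) (g x) le_top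
    simpa using this
  · exact rk_le_of_strict P P ⊤ g (fun x y h _ => g.strictMono h) x le_top

end diamonds

/-- maps which will turn out to be coverings -/
structure PreCov {m : ℕ} (U R : Polytope m) (π : U.Face → R.Face) : Prop where
  mono : Monotone π
  rank : ∀ x, R.rk (π x) = U.rk x
  dinj : ∀ F x y G : U.Face, F < x → x < G → F < y → y < G → U.rk G = U.rk F + 2 →
    π x = π y → x = y

namespace PreCov

variable {m : ℕ} {U R S : Polytope m} {π ρ : U.Face → R.Face}

lemma lt (hπ : PreCov U R π) {x y : U.Face} (h : x < y) : π x < π y := by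
  refine lt_of_le_of_ne (hπ.mono h.le) ?_
  intro he
  have h1 := U.rk_strictMono h
  rw [← hπ.rank, ← hπ.rank, he] at h1
  omega

lemma comp {σ : R.Face → S.Face} (hσ : PreCov R S σ) (hπ : PreCov U R π) :
    PreCov U S (σ ∘ π) where
  mono := hσ.mono.comp hπ.mono
  rank := fun x => by
    change S.rk (σ (π x)) = _
    rw [hσ.rank, hπ.rank]
  dinj := by
    intro F x y G h1 h2 h3 h4 hr he
    apply hπ.dinj F x y G h1 h2 h3 h4 hr
    apply hσ.dinj (π F) _ _ (π G) (hπ.lt h1) (hπ.lt h2) (hπ.lt h3) (hπ.lt h4)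
    · rw [hπ.rank, hπ.rank, hr]
    · exact he

lemma id (U : Polytope m) : PreCov U U id where
  mono := monotone_id
  rank := fun _ => rfl
  dinj := fun _ _ _ _ _ _ _ _ _ h => h

lemma of_iso (g : U.Face ≃o U.Face) : PreCov U U g where
  mono := g.monotone
  rank := rk_aut U g
  dinj := fun _ _ _ _ _ _ _ _ _ h => g.injective h

lemma iterate {π : U.Face → U.Face} (hπ : PreCov U U π) (k : ℕ) : PreCov U U (π^[k]) := by
  induction k with
  | zero => exact PreCov.id U
  | succ k ih =>
    rw [Function.iterate_succ]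
    exact ih.comp hπ

lemma image_flag (hπ : PreCov U R π) (A : Flag U.Face) :
    ∃ A' : Flag R.Face, (A' : Set R.Face) = π '' A := by
  apply chain_is_flag R.rk_strictMono R.flag_ranks
  · rintro _ ⟨x, hx, rfl⟩ _ ⟨y, hy, rfl⟩ _
    rcases A.le_or_le hx hy with h | h
    · exact Or.inl (hπ.mono h)
    · exact Or.inr (hπ.mono h)
  · intro i hi
    obtain ⟨x, hx, hxi⟩ := flag_exists U.flag_ranks A hi
    exact ⟨π x, ⟨x, hx, rfl⟩, by rw [hπ.rank, hxi]⟩

/-- two maps agreeing on a flag are equal -/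
theorem agree (hπ : PreCov U R π) (hρ : PreCov U R ρ) (A : Flag U.Face)
    (h : ∀ x ∈ A, π x = ρ x) : π = ρ := by
  have key : ∀ B : Flag U.Face, ∀ x ∈ B, π x = ρ x := by
    intro B
    have hpath := U.connected A B
    have claim : ∀ C : Flag U.Face, Relation.ReflTransGen
        (fun C D : Flag U.Face => FlagAdj C D ∧ (A : Set U.Face) ∩ B ⊆ D) A C →
        ∀ x ∈ C, π x = ρ x := by
      intro C hC
      induction hC with
      | refl => exact h
      | tail _ hstep ih =>
        rename_i C D _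
        obtain ⟨x, y, F, G, hx1, hx2, hy1, hy2, hd, hDeq, hF, hG, hFr, hGr, hFy, hyG⟩ :=
          adj_desc U hstep.1
        have hm := U.rk_strictMono
        have hFx : F < x := flag_lt hm C hF hx1 (by omega)
        have hxG : x < G := flag_lt hm C hx1 hG (by omega)
        have hyx : y ≠ x := fun h => hy2 (h ▸ hx1)
        have e1 := ih F hF
        have e2 := ih G hG
        have e3 := ih x hx1
        have hyy : π y = ρ y := by
          apply diamond_unique R (F := π F) (G := π G) (x := π x)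
          · rw [hπ.rank, hπ.rank]; omega
          · exact hπ.lt hFx
          · exact hπ.lt hxG
          · exact hπ.lt hFy
          · exact hπ.lt hyG
          · rw [e1]; exact hρ.lt hFy
          · rw [e2]; exact hρ.lt hyG
          · intro he
            exact hyx (hπ.dinj F y x G hFy hyG hFx hxG (by omega) he)
          · intro he
            rw [e3] at he
            exact hyx (hρ.dinj F y x G hFy hyG hFx hxG (by omega) he)
        intro z hz
        have hz' : z ∈ (D : Set U.Face) := hz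
        rw [hDeq] at hz'
        rcases hz' with rfl | hz'
        · exact hyy
        · exact ih z hz'.1
    exact claim B hpath
  funext x
  obtain ⟨B, hB⟩ := exists_flag U x
  exact key B x hB

/-- every flag of the target is the image of a flag -/
lemma lift (hπ : PreCov U R π) (B' : Flag R.Face) :
    ∃ B : Flag U.Face, π '' (B : Set U.Face) = B' := by
  obtain ⟨A, _⟩ := exists_flag U ⊥
  obtain ⟨A', hA'⟩ := hπ.image_flag A
  have hpath := R.connected A' B'
  have claim : ∀ C' : Flag R.Face, Relation.ReflTransGen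
      (fun C D : Flag R.Face => FlagAdj C D ∧ (A' : Set R.Face) ∩ B' ⊆ D) A' C' →
      ∃ C : Flag U.Face, π '' (C : Set U.Face) = C' := by
    intro C' hC'
    induction hC' with
    | refl => exact ⟨A, hA'.symm⟩
    | tail _ hstep ih =>
      rename_i C' D' _
      obtain ⟨C, hC⟩ := ih
      obtain ⟨x', y', F', G', hx1, hx2, hy1, hy2, hd, hDeq, hF', hG', hFr, hGr, hFy, hyG⟩ :=
        adj_desc R hstep.1
      have hx1' : x' ∈ π '' (C : Set U.Face) := by rw [hC]; exact hx1
      obtain ⟨x, hxC, rfl⟩ := hx1'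
      have hF1 : F' ∈ π '' (C : Set U.Face) := by rw [hC]; exact hF'
      have hG1 : G' ∈ π '' (C : Set U.Face) := by rw [hC]; exact hG'
      obtain ⟨F, hFC, rfl⟩ := hF1
      obtain ⟨G, hGC, rfl⟩ := hG1
      have hFr' := hFr
      have hGr' := hGr
      rw [hπ.rank, hπ.rank] at hFr hGr
      have hm := U.rk_strictMono
      have hFx : F < x := flag_lt hm C hFC hxC (by omega)
      have hxG : x < G := flag_lt hm C hxC hGC (by omega)
      obtain ⟨y, hFy1, hyG1, hyx⟩ := diamond_other U (x := x) (hFx.trans hxG) (by omega)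
      obtain ⟨D, hD, _, _⟩ := exchange hm U.flag_ranks C hxC hFC hGC (by omega) (by omega)
        hFy1 hyG1 hyx.symm
      have hyy : π y = y' := by
        apply diamond_unique R (F := π F) (G := π G) (x := π x)
        · omega
        · exact hπ.lt hFx
        · exact hπ.lt hxG
        · exact hπ.lt hFy1
        · exact hπ.lt hyG1
        · exact hFy
        · exact hyG
        · intro he
          exact hyx (hπ.dinj F y x G hFy1 hyG1 hFx hxG (by omega) he)
        · intro he
          exact hy2 (he ▸ hx1)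
      refine ⟨D, ?_⟩
      rw [hD, hDeq, Set.image_insert_eq, hyy, ← hC]
      congr 1
      ext z
      constructor
      · rintro ⟨w, ⟨hw1, hw2⟩, rfl⟩
        refine ⟨⟨w, hw1, rfl⟩, ?_⟩
        intro he
        apply hw2
        apply flag_unique hm C hw1 hxC
        have he' : π w = π x := he
        rw [← hπ.rank, ← hπ.rank, he']
      · rintro ⟨⟨w, hw1, rfl⟩, hw2⟩
        refine ⟨w, ⟨hw1, ?_⟩, rfl⟩
        intro he
        apply hw2
        have he' : w = x := he
        rw [he']; rfl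
  exact claim B' hpath

lemma surj (hπ : PreCov U R π) : Function.Surjective π := by
  intro z
  obtain ⟨B', hB'⟩ := exists_flag R z
  obtain ⟨B, hB⟩ := hπ.lift B'
  have : z ∈ π '' (B : Set U.Face) := by rw [hB]; exact hB'
  obtain ⟨x, _, hx⟩ := this
  exact ⟨x, hx⟩

theorem isCovering (hπ : PreCov U R π) : IsCovering U R π where
  surj := hπ.surj
  mono := hπ.mono
  rank := hπ.rank
  adj := by
    intro A B hadj
    obtain ⟨x, y, F, G, hx1, hx2, hy1, hy2, hd, hBeq, hF, hG, hFr, hGr, hFy, hyG⟩ :=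
      adj_desc U hadj
    obtain ⟨A', hA'⟩ := hπ.image_flag A
    have hm := U.rk_strictMono
    have hFx : F < x := flag_lt hm A hF hx1 (by omega)
    have hxG : x < G := flag_lt hm A hx1 hG (by omega)
    have hyx : y ≠ x := fun h => hy2 (h ▸ hx1)
    have hmem : ∀ z ∈ A, π z ∈ A' := by
      intro z hz
      have : π z ∈ (A' : Set R.Face) := by rw [hA']; exact ⟨z, hz, rfl⟩
      exact this
    obtain ⟨B', hB', hadj', _⟩ := exchange R.rk_strictMono R.flag_ranks A' (hmem x hx1)
      (hmem F hF) (hmem G hG) (by rw [hπ.rank, hπ.rank, hFr]) (by rw [hπ.rank, hπ.rank, hGr])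
      (hπ.lt hFy) (hπ.lt hyG) (fun he => hyx
        (hπ.dinj F y x G hFy hyG hFx hxG (by omega) he.symm))
    refine ⟨A', B', hA', ?_, hadj'⟩
    rw [hB', hBeq, Set.image_insert_eq, hA']
    congr 1
    ext z
    constructor
    · rintro ⟨⟨w, hw1, rfl⟩, hw2⟩
      refine ⟨w, ⟨hw1, ?_⟩, rfl⟩
      intro he
      apply hw2
      have he' : w = x := he
      rw [he']; rfl
    · rintro ⟨w, ⟨hw1, hw2⟩, rfl⟩
      refine ⟨⟨w, hw1, rfl⟩, ?_⟩
      intro he
      apply hw2
      apply flag_unique hm A hw1 hx1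
      have he' : π w = π x := he
      rw [← hπ.rank, ← hπ.rank, he']

end PreCov

theorem IsCovering.preCov {m : ℕ} {U R : Polytope m} {π : U.Face → R.Face}
    (hπ : IsCovering U R π) : PreCov U R π where
  mono := hπ.mono
  rank := hπ.rank
  dinj := by
    intro F x y G hFx hxG hFy hyG hr he
    by_contra hxy
    obtain ⟨A, hFA, hxA, hGA⟩ := exists_flag_triple U hFx.le hxG.le
    have h1 := U.rk_strictMono hFx
    have h2 := U.rk_strictMono hxG
    obtain ⟨B, hB, hadj, _⟩ := exchange U.rk_strictMono U.flag_ranks A hxA hFA hGA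
      (by omega) (by omega) hFy hyG hxy
    obtain ⟨A', B', hA', hB', hadj'⟩ := hπ.adj A B hadj
    have hsub : (A' : Set R.Face) ⊆ B' := by
      rw [hA', hB', hB]
      rintro _ ⟨w, hw, rfl⟩
      by_cases hwx : w = x
      · rw [hwx, he]
        exact ⟨y, Set.mem_insert _ _, rfl⟩
      · exact ⟨w, Set.mem_insert_of_mem _ ⟨hw, hwx⟩, rfl⟩
    have h0 : (A' : Set R.Face) \ B' = ∅ := Set.sdiff_eq_empty.mpr hsub
    have h3 := hadj'.1
    rw [h0, Set.ncard_empty] at h3
    omega

/-- a self-covering of a polytope with finitely many flag orbits is an automorphism -/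
theorem PreCov.aut {m : ℕ} {P : Polytope m} [Finite (Quotient (flagOrbits P.Face))]
    {π : P.Face → P.Face} (hπ : PreCov P P π) : ∃ g : P.Face ≃o P.Face, ∀ x, g x = π x := by
  obtain ⟨Φ, _⟩ := exists_flag P ⊥
  choose F hF using fun k : ℕ => (hπ.iterate k).image_flag Φ
  obtain ⟨a, b, hab, heq⟩ := Finite.exists_ne_map_eq_of_infinite
    (fun k : ℕ => (Quotient.mk (flagOrbits P.Face) (F k)))
  -- without loss of generality a < b
  have key : ∀ a b : ℕ, a < b → Quotient.mk (flagOrbits P.Face) (F a) = Quotient.mk (flagOrbits P.Face) (F b) →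
      ∃ g : P.Face ≃o P.Face, ∃ d : ℕ, ∀ x, g x = π^[d + 1] x := by
    intro a b hab heq
    obtain ⟨g, hg⟩ := Quotient.exact heq
    obtain ⟨d, rfl⟩ : ∃ d, b = a + d + 1 := ⟨b - a - 1, by omega⟩
    refine ⟨g, d, ?_⟩
    have hFa : (F (a + d + 1) : Set P.Face) = π^[d + 1] '' (F a) := by
      rw [hF, hF, ← Set.image_comp, ← Function.iterate_add]
      congr 2
      omega
    have hagree : (g : P.Face → P.Face) = π^[d + 1] := by
      apply (PreCov.of_iso g).agree (hπ.iterate (d + 1)) (F a)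
      intro x hx
      have h1 : g x ∈ (F (a + d + 1) : Set P.Face) := by rw [← hg]; exact ⟨x, hx, rfl⟩
      have h2 : π^[d + 1] x ∈ (F (a + d + 1) : Set P.Face) := by rw [hFa]; exact ⟨x, hx, rfl⟩
      apply flag_unique P.rk_strictMono _ h1 h2
      rw [rk_aut, (hπ.iterate (d + 1)).rank]
    intro x
    rw [← hagree]
  have hgd : ∃ g : P.Face ≃o P.Face, ∃ d : ℕ, ∀ x, g x = π^[d + 1] x := by
    rcases lt_or_gt_of_ne hab with h | h
    · exact key a b h heq
    · exact key b a h heq.symm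
  obtain ⟨g, d, hg⟩ := hgd
  have hrefl : ∀ x y, π x ≤ π y → x ≤ y := by
    intro x y h
    have h1 := (hπ.iterate d).mono h
    have h2 : g x ≤ g y := by
      rw [hg, hg, Function.iterate_succ_apply, Function.iterate_succ_apply]
      exact h1
    exact g.le_iff_le.mp h2
  let e : P.Face ↪o P.Face := OrderEmbedding.ofMapLEIff π
    (fun x y => ⟨hrefl x y, fun h => hπ.mono h⟩)
  exact ⟨RelIso.ofSurjective e hπ.surj, fun x => rfl⟩

/-- `e` identifies `P` with the section of `R` below the face `e ⊤`. -/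
structure IsChart {n m : ℕ} (P : Polytope n) (R : Polytope m) (e : P.Face → R.Face) : Prop where
  le_iff : ∀ x y, e x ≤ e y ↔ x ≤ y
  surj : ∀ z, z ≤ e ⊤ → ∃ x, e x = z

namespace IsChart

variable {n m : ℕ} {P : Polytope n} {R : Polytope m} {e e' : P.Face → R.Face}

lemma inj (h : IsChart P R e) {x y : P.Face} (hxy : e x = e y) : x = y :=
  le_antisymm ((h.le_iff x y).mp hxy.le) ((h.le_iff y x).mp hxy.ge)

lemma injective (h : IsChart P R e) : Function.Injective e := fun _ _ => h.inj

lemma lt_iff (h : IsChart P R e) (x y : P.Face) : e x < e y ↔ x < y := by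
  rw [lt_iff_le_not_ge, lt_iff_le_not_ge, h.le_iff, h.le_iff]

lemma le_top (h : IsChart P R e) (x : P.Face) : e x ≤ e ⊤ := (h.le_iff _ _).mpr _root_.le_top

lemma inv_right {z : R.Face} (h : IsChart P R e) (hz : z ≤ e ⊤) : e (Function.invFun e z) = z :=
  Function.invFun_eq (h.surj z hz)

lemma inv_left (h : IsChart P R e) (x : P.Face) : Function.invFun e (e x) = x :=
  h.inj (h.inv_right (h.le_top x))

lemma rank (h : IsChart P R e) (x : P.Face) : R.rk (e x) = P.rk x := by
  apply le_antisymm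
  · have := rk_le_of_strict R P (e ⊤) (Function.invFun e) (fun y z hyz hz => by
      rw [← h.lt_iff, h.inv_right hz, h.inv_right (hyz.le.trans hz)]
      exact hyz) (e x) (h.le_top x)
    rwa [h.inv_left] at this
  · exact rk_le_of_strict P R ⊤ e (fun y z hyz _ => (h.lt_iff y z).mpr hyz) x _root_.le_top

lemma comp_aut (h : IsChart P R e) (a : P.Face ≃o P.Face) : IsChart P R (fun x => e (a x)) where
  le_iff := fun x y => by rw [h.le_iff, a.le_iff_le]
  surj := by
    intro z hz
    rw [map_top] at hz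
    obtain ⟨x, hx⟩ := h.surj z hz
    exact ⟨a.symm x, by rw [a.apply_symm_apply, hx]⟩

lemma map (h : IsChart P R e) (g : R.Face ≃o R.Face) : IsChart P R (fun x => g (e x)) where
  le_iff := fun x y => by rw [g.le_iff_le, h.le_iff]
  surj := by
    intro z hz
    obtain ⟨x, hx⟩ := h.surj (g.symm z) (by rw [OrderIso.symm_apply_le]; exact hz)
    exact ⟨x, by rw [hx, g.apply_symm_apply]⟩

lemma of_iso {G : R.Face} (i : Set.Iic G ≃o P.Face) :
    IsChart P R (fun x => ((i.symm x : Set.Iic G) : R.Face)) ∧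
      ((i.symm ⊤ : Set.Iic G) : R.Face) = G := by
  have htop : ((i.symm ⊤ : Set.Iic G) : R.Face) = G := by
    apply le_antisymm (i.symm ⊤).2
    have : i ⟨G, le_refl G⟩ ≤ ⊤ := _root_.le_top
    have h2 := i.symm.monotone this
    rw [i.symm_apply_apply] at h2
    exact h2
  refine ⟨⟨fun x y => ?_, fun z hz => ?_⟩, htop⟩
  · rw [Subtype.coe_le_coe, i.symm.le_iff_le]
  · rw [htop] at hz
    exact ⟨i ⟨z, hz⟩, by rw [i.symm_apply_apply]⟩

lemma toIso (h : IsChart P R e) : Nonempty (Set.Iic (e ⊤) ≃o P.Face) := by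
  let f : P.Face → Set.Iic (e ⊤) := fun x => ⟨e x, h.le_top x⟩
  let f' : P.Face ↪o Set.Iic (e ⊤) := OrderEmbedding.ofMapLEIff f (fun x y => h.le_iff x y)
  refine ⟨(RelIso.ofSurjective f' ?_).symm⟩
  rintro ⟨z, hz⟩
  obtain ⟨x, hx⟩ := h.surj z hz
  exact ⟨x, Subtype.ext hx⟩

lemma transition (h : IsChart P R e) (h' : IsChart P R e') (ht : e ⊤ = e' ⊤) :
    ∃ a : P.Face ≃o P.Face, ∀ x, e' (a x) = e x := by
  have hle : ∀ x, e x ≤ e' ⊤ := fun x => ht ▸ h.le_top x
  let f : P.Face → P.Face := fun x => Function.invFun e' (e x)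
  have hf : ∀ x, e' (f x) = e x := fun x => h'.inv_right (hle x)
  let f' : P.Face ↪o P.Face := OrderEmbedding.ofMapLEIff f (fun x y => by
    rw [← h'.le_iff, hf, hf, h.le_iff])
  refine ⟨RelIso.ofSurjective f' ?_, hf⟩
  intro y
  obtain ⟨x, hx⟩ := h.surj (e' y) (ht ▸ h'.le_top y)
  refine ⟨x, ?_⟩
  apply h'.inj
  rw [← hx]
  exact hf x

/-- two charts agreeing on a flag are equal -/
lemma rigid (h : IsChart P R e) (h' : IsChart P R e') (Φ : Flag P.Face)
    (hΦ : ∀ x ∈ Φ, e x = e' x) : ∀ x, e x = e' x := by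
  obtain ⟨a, ha⟩ := h.transition h' (hΦ ⊤ Φ.top_mem)
  have : (a : P.Face → P.Face) = id := by
    apply (PreCov.of_iso a).agree (PreCov.id P) Φ
    intro x hx
    apply h'.inj
    rw [ha, hΦ x hx]
    rfl
  intro x
  rw [← ha, this]
  rfl

lemma ext_flag {R : Polytope (n + 1)} {e : P.Face → R.Face} (h : IsChart P R e)
    (Φ : Flag P.Face) : ∃ A : Flag R.Face, (A : Set R.Face) = insert ⊤ (e '' Φ) := by
  apply chain_is_flag R.rk_strictMono R.flag_ranks
  · apply IsChain.insert
    · rintro _ ⟨x, hx, rfl⟩ _ ⟨y, hy, rfl⟩ _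
      rcases Φ.le_or_le hx hy with h1 | h1
      · exact Or.inl ((h.le_iff _ _).mpr h1)
      · exact Or.inr ((h.le_iff _ _).mpr h1)
    · intro b _ _
      exact Or.inr _root_.le_top
  · intro i hi
    rcases Nat.lt_or_ge i (n + 2) with h1 | h1
    · obtain ⟨x, hx, hxi⟩ := flag_exists P.flag_ranks Φ (show i ≤ n + 1 by omega)
      exact ⟨e x, Set.mem_insert_of_mem _ ⟨x, hx, rfl⟩, by rw [h.rank, hxi]⟩
    · refine ⟨⊤, Set.mem_insert _ _, ?_⟩
      rw [rk_top]
      have : i ≤ n + 1 + 1 := hi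
      omega

lemma res_flag {R : Polytope (n + 1)} {e : P.Face → R.Face} (h : IsChart P R e)
    (A : Flag R.Face) (hA : e ⊤ ∈ A) :
    ∃ Φ : Flag P.Face, (A : Set R.Face) = insert ⊤ (e '' Φ) := by
  have hm := R.rk_strictMono
  have hrt : R.rk (e ⊤) = n + 1 := by rw [h.rank, rk_top]
  obtain ⟨Φ, hΦ⟩ := chain_is_flag P.rk_strictMono P.flag_ranks (c := e ⁻¹' (A : Set R.Face))
    (by
      intro x hx y hy _
      rcases A.le_or_le hx hy with h1 | h1
      · exact Or.inl ((h.le_iff _ _).mp h1)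
      · exact Or.inr ((h.le_iff _ _).mp h1))
    (by
      intro i hi
      have hi' : i ≤ n + 1 := hi
      obtain ⟨z, hz, hzi⟩ := flag_exists R.flag_ranks A (show i ≤ n + 1 + 1 by omega)
      obtain ⟨x, rfl⟩ := h.surj z (flag_le hm A hz hA (by omega))
      exact ⟨x, hz, by rw [← hzi, h.rank]⟩)
  refine ⟨Φ, ?_⟩
  rw [hΦ]
  apply Set.Subset.antisymm
  · intro z hz
    rcases Nat.lt_or_ge (n + 1) (R.rk z) with h1 | h1
    · left
      apply eq_top_of_rk R
      have := rk_le R z
      omega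
    · right
      obtain ⟨x, rfl⟩ := h.surj z (flag_le hm A hz hA (by omega))
      exact ⟨x, hz, rfl⟩
  · rintro z (rfl | ⟨x, hx, rfl⟩)
    · exact A.top_mem
    · exact hx

end IsChart

section types

variable {n : ℕ}

/-- every facet of `R` carries a chart from `P` -/
def IsExt (P : Polytope n) (R : Polytope (n + 1)) : Prop :=
  ∀ F : R.Face, R.rk F = n + 1 → ∃ e, IsChart P R e ∧ e ⊤ = F

lemma isExt_iff (P : Polytope n) (R : Polytope (n + 1)) :
    IsExt P R ↔ ∀ F : R.Face, R.rk F = n + 1 → Nonempty (Set.Iic F ≃o P.Face) := by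
  constructor
  · intro h F hF
    obtain ⟨e, he, rfl⟩ := h F hF
    exact he.toIso
  · intro h F hF
    obtain ⟨i⟩ := h F hF
    obtain ⟨h1, h2⟩ := IsChart.of_iso i
    exact ⟨_, h1, h2⟩

/-- any two charts are related by an automorphism -/
def Homog (P : Polytope n) (R : Polytope (n + 1)) : Prop :=
  ∀ e e', IsChart P R e → IsChart P R e' → ∃ g : R.Face ≃o R.Face, ∀ x, g (e x) = e' x

/-- the flag `A` of `R` restricts to the orbit of the flag `Φ` of `P` -/
def HasType (P : Polytope n) (R : Polytope (n + 1)) (A : Flag R.Face) (Φ : Flag P.Face) : Prop :=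
  ∃ e, IsChart P R e ∧ (A : Set R.Face) = insert ⊤ (e '' Φ)

variable {P : Polytope n} {R : Polytope (n + 1)}

lemma exists_type (h : IsExt P R) (A : Flag R.Face) : ∃ Φ, HasType P R A Φ := by
  obtain ⟨F, hF, hr⟩ := flag_exists R.flag_ranks A (show n + 1 ≤ n + 1 + 1 by omega)
  obtain ⟨e, he, rfl⟩ := h F hr
  obtain ⟨Φ, hΦ⟩ := he.res_flag A hF
  exact ⟨Φ, e, he, hΦ⟩

lemma exists_of_type (h : IsExt P R) (Φ : Flag P.Face) : ∃ A, HasType P R A Φ := by
  obtain ⟨A0, _⟩ := exists_flag R ⊥
  obtain ⟨F, _, hr⟩ := flag_exists R.flag_ranks A0 (show n + 1 ≤ n + 1 + 1 by omega)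
  obtain ⟨e, he, rfl⟩ := h F hr
  obtain ⟨A, hA⟩ := he.ext_flag Φ
  exact ⟨A, e, he, hA⟩

lemma type_congr {A B : Flag R.Face} {Φ Ψ : Flag P.Face} (hA : HasType P R A Φ)
    (hB : HasType P R B Ψ) (hAB : (flagOrbits R.Face).r A B) : (flagOrbits P.Face).r Φ Ψ := by
  obtain ⟨g, hg⟩ := hAB
  obtain ⟨e, he, hAe⟩ := hA
  obtain ⟨e', he', hBe⟩ := hB
  have h1 : g (e ⊤) ∈ (B : Set R.Face) := by
    rw [← hg, hAe]
    exact ⟨e ⊤, Set.mem_insert_of_mem _ ⟨⊤, Φ.top_mem, rfl⟩, rfl⟩
  have h2 : e' ⊤ ∈ (B : Set R.Face) := by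
    rw [hBe]
    exact Set.mem_insert_of_mem _ ⟨⊤, Ψ.top_mem, rfl⟩
  have hge := he.map g
  have h3 : g (e ⊤) = e' ⊤ := by
    apply flag_unique R.rk_strictMono B h1 h2
    rw [hge.rank ⊤, he'.rank]
  obtain ⟨a, ha⟩ := hge.transition he' h3
  refine ⟨a, ?_⟩
  obtain ⟨Φ', hΦ'⟩ := (PreCov.of_iso a).image_flag Φ
  rw [← hΦ']
  have hsub : (Φ' : Set P.Face) ⊆ Ψ := by
    rw [hΦ']
    rintro _ ⟨x, hx, rfl⟩
    have h4 : e' (a x) ∈ (B : Set R.Face) := by
      rw [ha, ← hg, hAe]
      exact ⟨e x, Set.mem_insert_of_mem _ ⟨x, hx, rfl⟩, rfl⟩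
    rw [hBe] at h4
    rcases h4 with h4 | ⟨y, hy, h4⟩
    · have h5 := he'.rank (a x)
      rw [h4, rk_top] at h5
      have h6 := rk_le P (a x)
      omega
    · rw [← he'.inj h4]; exact hy
  rw [flag_eq_of_subset hsub]

lemma homog_type (h : Homog P R) {A B : Flag R.Face} {Φ Ψ : Flag P.Face}
    (hA : HasType P R A Φ) (hB : HasType P R B Ψ) (hΦ : (flagOrbits P.Face).r Φ Ψ) :
    (flagOrbits R.Face).r A B := by
  obtain ⟨a, ha⟩ := hΦ
  obtain ⟨e, he, hAe⟩ := hA
  obtain ⟨e', he', hBe⟩ := hB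
  obtain ⟨g, hg⟩ := h e (fun x => e' (a x)) he (he'.comp_aut a)
  refine ⟨g, ?_⟩
  rw [hAe, hBe, Set.image_insert_eq, map_top, ← ha, ← Set.image_comp, ← Set.image_comp]
  congr 1
  apply Set.image_congr
  intro x _
  exact hg x

lemma homog_of_type (h : ∀ A B : Flag R.Face, ∀ Φ Ψ : Flag P.Face, HasType P R A Φ →
    HasType P R B Ψ → (flagOrbits P.Face).r Φ Ψ → (flagOrbits R.Face).r A B) : Homog P R := by
  intro e e' he he'
  obtain ⟨Φ, _⟩ := exists_flag P ⊥
  obtain ⟨A, hA⟩ := he.ext_flag Φ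
  obtain ⟨B, hB⟩ := he'.ext_flag Φ
  obtain ⟨g, hg⟩ := h A B Φ Φ ⟨e, he, hA⟩ ⟨e', he', hB⟩ ((flagOrbits P.Face).refl Φ)
  refine ⟨g, ?_⟩
  apply (he.map g).rigid he' Φ
  intro x hx
  have h1 : g (e x) ∈ (B : Set R.Face) := by
    rw [← hg, hA]
    exact ⟨e x, Set.mem_insert_of_mem _ ⟨x, hx, rfl⟩, rfl⟩
  have h2 : e' x ∈ (B : Set R.Face) := by
    rw [hB]
    exact Set.mem_insert_of_mem _ ⟨x, hx, rfl⟩
  apply flag_unique R.rk_strictMono B h1 h2
  rw [(he.map g).rank x, he'.rank]

/-- an extension is a `k`-orbit polytope iff it is homogeneous -/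
theorem orbit_iff {k : ℕ} (hP : IsKOrbit k P) (hR : IsExt P R) :
    IsKOrbit k R ↔ Homog P R := by
  classical
  choose tf htf using exists_type hR
  let t : Quotient (flagOrbits R.Face) → Quotient (flagOrbits P.Face) :=
    Quotient.lift (fun A => Quotient.mk (flagOrbits P.Face) (tf A)) (fun A B hAB =>
      Quotient.sound (type_congr (htf A) (htf B) hAB))
  have htype : ∀ A Φ, HasType P R A Φ → t (Quotient.mk _ A) = Quotient.mk _ Φ := by
    intro A Φ h
    exact Quotient.sound (type_congr (htf A) h ((flagOrbits R.Face).refl A))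
  have hsurj : Function.Surjective t := by
    intro q
    induction q using Quotient.inductionOn with
    | _ Φ =>
      obtain ⟨A, hA⟩ := exists_of_type hR Φ
      exact ⟨Quotient.mk _ A, htype A Φ hA⟩
  constructor
  · intro hk
    have hfin : Finite (Quotient (flagOrbits R.Face)) :=
      Nat.finite_of_card_ne_zero (by rw [hk.2]; exact hk.1.ne')
    have hbij : Function.Bijective t :=
      hsurj.bijective_of_nat_card_le (by rw [hk.2, hP.2])
    apply homog_of_type
    intro A B Φ Ψ hA hB hΦ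
    apply Quotient.exact
    apply hbij.1
    rw [htype A Φ hA, htype B Ψ hB]
    exact Quotient.sound hΦ
  · intro hh
    refine ⟨hP.1, ?_⟩
    rw [← hP.2]
    apply Nat.card_eq_of_bijective t
    refine ⟨?_, hsurj⟩
    intro q q' hq
    induction q using Quotient.inductionOn with
    | _ A =>
      induction q' using Quotient.inductionOn with
      | _ B =>
        apply Quotient.sound
        exact homog_type hh (htf A) (htf B) (Quotient.exact hq)

/-- the other facet containing a ridge -/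
lemma exists_other (hR : IsExt P R) {e : P.Face → R.Face} (he : IsChart P R e) {K : P.Face}
    (hK : P.rk K = n) : ∃ e', IsChart P R e' ∧ e' ⊤ ≠ e ⊤ ∧ e K ≤ e' ⊤ := by
  have h1 : R.rk (e K) = n := by rw [he.rank, hK]
  have h2 : R.rk ⊤ = n + 2 := rk_top R
  have h3 : e K < ⊤ := by
    apply lt_of_le_of_ne le_top
    intro h; rw [h] at h1; omega
  obtain ⟨G, hG1, hG2, hG3⟩ := diamond_other R (x := e ⊤) h3 (by omega)
  have h4 := R.rk_strictMono hG1
  have h5 := R.rk_strictMono hG2
  obtain ⟨e', he', rfl⟩ := hR G (by omega)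
  exact ⟨e', he', hG3, hG1.le⟩

/-- there are only two facets containing a ridge -/
lemma other_unique {K G1 G2 G3 : R.Face} (hK : R.rk K = n) (h1 : R.rk G1 = n + 1)
    (h2 : R.rk G2 = n + 1) (h3 : R.rk G3 = n + 1) (hK1 : K ≤ G1) (hK2 : K ≤ G2) (hK3 : K ≤ G3)
    (h21 : G2 ≠ G1) (h31 : G3 ≠ G1) : G2 = G3 := by
  have ht : R.rk ⊤ = n + 2 := rk_top R
  have hlt : ∀ G, R.rk G = n + 1 → K ≤ G → K < G := by
    intro G hG hle
    apply lt_of_le_of_ne hle
    rintro rfl; omega
  have hlt' : ∀ G, R.rk G = n + 1 → G < ⊤ := by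
    intro G hG
    apply lt_of_le_of_ne le_top
    rintro rfl; omega
  exact diamond_unique R (F := K) (G := ⊤) (x := G1) (by omega) (hlt _ h1 hK1) (hlt' _ h1)
    (hlt _ h2 hK2) (hlt' _ h2) (hlt _ h3 hK3) (hlt' _ h3) h21 h31

/-- coverings between extensions map charts to charts -/
lemma PreCov.chart [Finite (Quotient (flagOrbits P.Face))] {U : Polytope (n + 1)} (hR : IsExt P R)
    {π : U.Face → R.Face} (hπ : PreCov U R π) {e : P.Face → U.Face} (he : IsChart P U e) :
    IsChart P R (fun x => π (e x)) := by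
  obtain ⟨e1, he1, ht⟩ := hR (π (e ⊤)) (by rw [hπ.rank, he.rank, rk_top])
  have hle : ∀ x, π (e x) ≤ e1 ⊤ := by
    intro x
    rw [ht]
    exact hπ.mono (he.le_top x)
  have hf : ∀ x, e1 (Function.invFun e1 (π (e x))) = π (e x) := fun x => he1.inv_right (hle x)
  have hρ : PreCov P P (fun x => Function.invFun e1 (π (e x))) := by
    refine ⟨fun x y hxy => ?_, fun x => ?_, ?_⟩
    · rw [← he1.le_iff, hf, hf]
      exact hπ.mono ((he.le_iff _ _).mpr hxy)
    · rw [← he1.rank, hf, hπ.rank, he.rank]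
    · intro F x y G h1 h2 h3 h4 hr heq
      have heq' : π (e x) = π (e y) := by
        rw [← hf x, ← hf y]
        exact congrArg e1 heq
      apply he.inj
      apply hπ.dinj (e F) (e x) (e y) (e G) ((he.lt_iff _ _).mpr h1) ((he.lt_iff _ _).mpr h2)
        ((he.lt_iff _ _).mpr h3) ((he.lt_iff _ _).mpr h4) _ heq'
      rw [he.rank, he.rank, hr]
  obtain ⟨a, ha⟩ := hρ.aut
  have : (fun x => π (e x)) = fun x => e1 (a x) := by
    funext x
    rw [ha, hf]
  rw [this]
  exact he1.comp_aut a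

end types

/-- `f` and `fi` are inverse isomorphisms between the sections below `K` and `K'` -/
structure PIso {n : ℕ} (P : Polytope n) (K K' : P.Face) (f fi : P.Face → P.Face) : Prop where
  f_le : ∀ x, x ≤ K → f x ≤ K'
  fi_le : ∀ y, y ≤ K' → fi y ≤ K
  fi_f : ∀ x, x ≤ K → fi (f x) = x
  f_fi : ∀ y, y ≤ K' → f (fi y) = y
  f_mono : ∀ x y, x ≤ y → y ≤ K → f x ≤ f y
  fi_mono : ∀ x y, x ≤ y → y ≤ K' → fi x ≤ fi y

namespace PIso

variable {n : ℕ} {P : Polytope n} {K K' : P.Face} {f fi : P.Face → P.Face}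

lemma symm (h : PIso P K K' f fi) : PIso P K' K fi f :=
  ⟨h.fi_le, h.f_le, h.f_fi, h.fi_f, h.fi_mono, h.f_mono⟩

lemma f_strict (h : PIso P K K' f fi) (x y : P.Face) (hxy : x < y) (hy : y ≤ K) : f x < f y := by
  apply lt_of_le_of_ne (h.f_mono x y hxy.le hy)
  intro he
  have := congrArg fi he
  rw [h.fi_f x (hxy.le.trans hy), h.fi_f y hy] at this
  exact hxy.ne this

lemma rk_f (h : PIso P K K' f fi) {x : P.Face} (hx : x ≤ K) : P.rk (f x) = P.rk x := by
  apply le_antisymm
  · have := rk_le_of_strict P P K' fi h.symm.f_strict (f x) (h.f_le x hx)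
    rwa [h.fi_f x hx] at this
  · exact rk_le_of_strict P P K f h.f_strict x hx

lemma rk_fi (h : PIso P K K' f fi) {y : P.Face} (hy : y ≤ K') : P.rk (fi y) = P.rk y :=
  h.symm.rk_f hy

lemma f_top (h : PIso P K K' f fi) : f K = K' := by
  apply le_antisymm (h.f_le K le_rfl)
  rw [← h.f_fi K' le_rfl]
  exact h.f_mono _ _ (h.fi_le K' le_rfl) le_rfl

lemma fi_top (h : PIso P K K' f fi) : fi K' = K := h.symm.f_top

lemma rk_eq (h : PIso P K K' f fi) : P.rk K' = P.rk K := by
  rw [← h.f_top, h.rk_f le_rfl]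

end PIso

/-- data for gluing copies of `P` in a tree-like fashion: the facet `K` of one copy is glued to
the facet `bar K` of the next copy by `f K` -/
structure Glue {n : ℕ} (P : Polytope n) where
  bar : P.Face → P.Face
  f : P.Face → P.Face → P.Face
  fi : P.Face → P.Face → P.Face
  iso : ∀ K, P.rk K = n → PIso P K (bar K) (f K) (fi K)
  equi : ∀ K, P.rk K = n → ∀ g : P.Face ≃o P.Face,
    ∃ g' : P.Face ≃o P.Face, ∀ x, x ≤ K → g' (f K x) = f (g K) (g x)
  inv : ∀ K, P.rk K = n →
    ∃ g' : P.Face ≃o P.Face, ∀ y, y ≤ bar K → g' (fi K y) = f (bar K) y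

namespace Glue

variable {n : ℕ} {P : Polytope n} (D : Glue P)

/-- the face `F` of the last cell of the word `v` lies in the previous cell -/
def Blocked (F : P.Face) : List P.Face → Prop
  | [] => False
  | L :: _ => F ≤ D.bar L

/-- reduced words in the facets of `P` -/
def Valid : List P.Face → Prop
  | [] => True
  | K :: v => P.rk K = n ∧ ¬ D.Blocked K v ∧ Valid v

open Classical in
/-- the canonical name of the face `F` of the cell `v` -/
noncomputable def canon : P.Face → List P.Face → P.Face × List P.Face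
  | F, [] => (F, [])
  | F, L :: v => if F ≤ D.bar L then canon (D.fi L F) v else (F, L :: v)

lemma canon_nil (F : P.Face) : D.canon F [] = (F, []) := rfl

lemma canon_pos {F L : P.Face} {v : List P.Face} (h : F ≤ D.bar L) :
    D.canon F (L :: v) = D.canon (D.fi L F) v := by
  rw [canon, if_pos h]

lemma canon_neg {F L : P.Face} {v : List P.Face} (h : ¬ F ≤ D.bar L) :
    D.canon F (L :: v) = (F, L :: v) := by
  rw [canon, if_neg h]

lemma canon_of_not_blocked {F : P.Face} {v : List P.Face} (h : ¬ D.Blocked F v) :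
    D.canon F v = (F, v) := by
  cases v with
  | nil => rfl
  | cons L v => exact D.canon_neg h

lemma canon_not_blocked (F : P.Face) (v : List P.Face) :
    ¬ D.Blocked (D.canon F v).1 (D.canon F v).2 := by
  induction v generalizing F with
  | nil => exact fun h => h
  | cons L v ih =>
    by_cases h : F ≤ D.bar L
    · rw [D.canon_pos h]; exact ih _
    · rw [D.canon_neg h]; exact h

lemma canon_valid {F : P.Face} {v : List P.Face} (hv : D.Valid v) : D.Valid (D.canon F v).2 := by
  induction v generalizing F with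
  | nil => trivial
  | cons L v ih =>
    by_cases h : F ≤ D.bar L
    · rw [D.canon_pos h]; exact ih hv.2.2
    · rw [D.canon_neg h]; exact hv

lemma canon_length (F : P.Face) (v : List P.Face) : (D.canon F v).2.length ≤ v.length := by
  induction v generalizing F with
  | nil => exact le_refl _
  | cons L v ih =>
    by_cases h : F ≤ D.bar L
    · rw [D.canon_pos h]; exact (ih _).trans (by simp)
    · rw [D.canon_neg h]

lemma canon_rk {F : P.Face} {v : List P.Face} (hv : D.Valid v) :
    P.rk (D.canon F v).1 = P.rk F := by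
  induction v generalizing F with
  | nil => rfl
  | cons L v ih =>
    by_cases h : F ≤ D.bar L
    · rw [D.canon_pos h, ih hv.2.2, (D.iso L hv.1).rk_fi h]
    · rw [D.canon_neg h]

lemma canon_inj {F G : P.Face} {v : List P.Face} (hv : D.Valid v)
    (h : D.canon F v = D.canon G v) : F = G := by
  induction v generalizing F G with
  | nil => exact congrArg Prod.fst h
  | cons L v ih =>
    by_cases h1 : F ≤ D.bar L
    · by_cases h2 : G ≤ D.bar L
      · rw [D.canon_pos h1, D.canon_pos h2] at h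
        have h3 := ih hv.2.2 h
        have h4 := congrArg (D.f L) h3
        rwa [(D.iso L hv.1).f_fi _ h1, (D.iso L hv.1).f_fi _ h2] at h4
      · rw [D.canon_pos h1, D.canon_neg h2] at h
        have := D.canon_length (D.fi L F) v
        rw [h] at this
        simp at this
    · by_cases h2 : G ≤ D.bar L
      · rw [D.canon_neg h1, D.canon_pos h2] at h
        have := D.canon_length (D.fi L G) v
        rw [← h] at this
        simp at this
      · rw [D.canon_neg h1, D.canon_neg h2] at h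
        exact congrArg Prod.fst h

/-- faces below a renamed face can be renamed back -/
lemma canon_back {G H : P.Face} {v : List P.Face} (hv : D.Valid v)
    (hH : H ≤ (D.canon G v).1) :
    ∃ H', H' ≤ G ∧ D.canon H' v = D.canon H (D.canon G v).2 := by
  induction v generalizing G with
  | nil => exact ⟨H, hH, rfl⟩
  | cons L v ih =>
    by_cases h1 : G ≤ D.bar L
    · rw [D.canon_pos h1] at hH ⊢
      obtain ⟨H'', h2, h3⟩ := ih hv.2.2 hH
      have hiso := D.iso L hv.1
      have h4 : D.f L H'' ≤ G := by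
        have := hiso.f_mono H'' (D.fi L G) h2 (hiso.fi_le G h1)
        rwa [hiso.f_fi G h1] at this
      refine ⟨D.f L H'', h4, ?_⟩
      rw [D.canon_pos (h4.trans h1), hiso.fi_f H'' (h2.trans (hiso.fi_le G h1)), h3]
    · rw [D.canon_neg h1] at hH ⊢
      exact ⟨H, hH, rfl⟩

/-- renaming is monotone -/
lemma canon_mono {G H : P.Face} {v : List P.Face} (hv : D.Valid v) (hH : H ≤ G) :
    ∃ H', H' ≤ (D.canon G v).1 ∧ D.canon H' (D.canon G v).2 = D.canon H v := by
  induction v generalizing G H with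
  | nil => exact ⟨H, hH, rfl⟩
  | cons L v ih =>
    by_cases h1 : G ≤ D.bar L
    · rw [D.canon_pos h1, D.canon_pos (hH.trans h1)]
      exact ih hv.2.2 ((D.iso L hv.1).fi_mono H G hH h1)
    · rw [D.canon_neg h1]
      exact ⟨H, hH, rfl⟩

lemma bar_rk {K : P.Face} (hK : P.rk K = n) : P.rk (D.bar K) = n := by
  rw [(D.iso K hK).rk_eq, hK]

lemma not_top_le_bar {K : P.Face} (hK : P.rk K = n) : ¬ ⊤ ≤ D.bar K := by
  intro h
  have h1 := P.rk_strictMono.monotone h
  rw [rk_top, D.bar_rk hK] at h1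
  omega

lemma top_not_blocked {v : List P.Face} (hv : D.Valid v) : ¬ D.Blocked ⊤ v := by
  cases v with
  | nil => exact fun h => h
  | cons L v => exact D.not_top_le_bar hv.1

lemma canon_top {v : List P.Face} (hv : D.Valid v) : D.canon ⊤ v = (⊤, v) :=
  D.canon_of_not_blocked (D.top_not_blocked hv)

lemma canon_bot {v : List P.Face} (hv : D.Valid v) : D.canon ⊥ v = (⊥, []) := by
  induction v with
  | nil => rfl
  | cons L v ih =>
    rw [D.canon_pos bot_le]
    have : D.fi L ⊥ = ⊥ := by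
      apply eq_bot_of_rk
      rw [(D.iso L hv.1).rk_fi bot_le, rk_bot]
    rw [this]
    exact ih hv.2.2

/-- proper faces of the tree -/
def Cell : Type := {p : P.Face × List P.Face // D.Valid p.2 ∧ ¬ D.Blocked p.1 p.2}

variable {D}

/-- the face `F` of the cell `v` -/
noncomputable def face (F : P.Face) (v : List P.Face) (hv : D.Valid v) : D.Cell :=
  ⟨D.canon F v, D.canon_valid hv, D.canon_not_blocked F v⟩

lemma face_self (p : D.Cell) : face p.1.1 p.1.2 p.2.1 = p := by
  apply Subtype.ext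
  exact D.canon_of_not_blocked p.2.2

lemma face_inj {F G : P.Face} {v : List P.Face} {hv : D.Valid v}
    (h : face F v hv = face G v hv) : F = G :=
  D.canon_inj hv (congrArg Subtype.val h)

instance : LE D.Cell where
  le p q := ∃ H, H ≤ q.1.1 ∧ D.canon H q.1.2 = p.1

lemma cell_le_iff (p q : D.Cell) : p ≤ q ↔ ∃ H, H ≤ q.1.1 ∧ face H q.1.2 q.2.1 = p := by
  constructor
  · rintro ⟨H, h1, h2⟩
    exact ⟨H, h1, Subtype.ext h2⟩
  · rintro ⟨H, h1, h2⟩
    exact ⟨H, h1, congrArg Subtype.val h2⟩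

lemma face_le_face {F G : P.Face} {v : List P.Face} {hv : D.Valid v} :
    face F v hv ≤ face G v hv ↔ F ≤ G := by
  constructor
  · rintro ⟨H, h1, h2⟩
    obtain ⟨H', h3, h4⟩ := D.canon_back hv h1
    have h5 : D.canon H' v = D.canon F v := by rw [h4]; exact h2
    rw [← D.canon_inj hv h5]
    exact h3
  · intro h
    obtain ⟨H', h1, h2⟩ := D.canon_mono hv h
    exact ⟨H', h1, h2⟩

/-- the faces below a face of the cell `v` are faces of the cell `v` -/
lemma le_face {p : D.Cell} {G : P.Face} {v : List P.Face} {hv : D.Valid v}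
    (h : p ≤ face G v hv) : ∃ H, H ≤ G ∧ face H v hv = p := by
  obtain ⟨H, h1, h2⟩ := h
  obtain ⟨H', h3, h4⟩ := D.canon_back hv h1
  exact ⟨H', h3, Subtype.ext (by rw [← h2]; exact h4)⟩

lemma cell_rk_lt {p q : D.Cell} (h : p ≤ q) (hne : p ≠ q) : P.rk p.1.1 < P.rk q.1.1 := by
  obtain ⟨H, h1, h2⟩ := h
  have h3 : H ≠ q.1.1 := by
    rintro rfl
    apply hne
    apply Subtype.ext
    rw [← h2]
    exact D.canon_of_not_blocked q.2.2
  rw [← h2, D.canon_rk q.2.1]
  exact P.rk_strictMono (lt_of_le_of_ne h1 h3)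

instance : PartialOrder D.Cell where
  le_refl p := ⟨p.1.1, le_rfl, D.canon_of_not_blocked p.2.2⟩
  le_trans p q r hpq hqr := by
    obtain ⟨H, h1, h2⟩ := hpq
    obtain ⟨G, h3, h4⟩ := hqr
    rw [← h4] at h1 h2
    obtain ⟨H', h5, h6⟩ := D.canon_back r.2.1 h1
    exact ⟨H', h5.trans h3, by rw [h6]; exact h2⟩
  le_antisymm p q hpq hqp := by
    by_contra hne
    have h1 := cell_rk_lt hpq hne
    have h2 := cell_rk_lt hqp (Ne.symm hne)
    omega

lemma face_lt_face {F G : P.Face} {v : List P.Face} {hv : D.Valid v} :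
    face F v hv < face G v hv ↔ F < G := by
  rw [lt_iff_le_not_ge, lt_iff_le_not_ge, face_le_face, face_le_face]

lemma nil_valid : D.Valid [] := trivial

noncomputable instance : OrderBot D.Cell where
  bot := face ⊥ [] nil_valid
  bot_le q := ⟨⊥, bot_le, by rw [D.canon_bot q.2.1]; rfl⟩

/-- the rank function of the tree -/
def rkT : WithTop D.Cell → ℕ
  | none => n + 2
  | some p => P.rk p.1.1

lemma rkT_top : rkT (⊤ : WithTop D.Cell) = n + 2 := rfl

lemma rkT_coe (p : D.Cell) : rkT (p : WithTop D.Cell) = P.rk p.1.1 := rfl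

lemma rkT_face (F : P.Face) (v : List P.Face) (hv : D.Valid v) :
    rkT ((face F v hv : D.Cell) : WithTop D.Cell) = P.rk F := D.canon_rk hv

lemma rkT_strict : StrictMono (rkT (D := D)) := by
  intro p q hpq
  induction q using WithTop.recTopCoe with
  | top =>
    induction p using WithTop.recTopCoe with
    | top => exact absurd hpq (lt_irrefl _)
    | coe p =>
      rw [rkT_top, rkT_coe]
      have := rk_le P p.1.1
      omega
  | coe q =>
    induction p using WithTop.recTopCoe with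
    | top => exact absurd hpq (by simp)
    | coe p =>
      rw [rkT_coe, rkT_coe]
      have h := WithTop.coe_lt_coe.mp hpq
      exact cell_rk_lt h.le h.ne

/-- all faces of the tree other than the greatest one are faces of a cell -/
lemma cases_face (p : WithTop D.Cell) :
    p = ⊤ ∨ ∃ F v hv, p = ((face F v hv : D.Cell) : WithTop D.Cell) := by
  induction p using WithTop.recTopCoe with
  | top => exact Or.inl rfl
  | coe p => exact Or.inr ⟨p.1.1, p.1.2, p.2.1, by rw [face_self]⟩

end Glue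

section sections

variable {n : ℕ}

lemma exists_between_rk (P : Polytope n) {F G : P.Face} (hFG : F < G)
    (hr : P.rk F + 2 ≤ P.rk G) : ∃ H, F < H ∧ H < G := by
  obtain ⟨A, hF, hG⟩ := exists_flag_pair P hFG.le
  obtain ⟨H, hH, hHr⟩ := flag_exists P.flag_ranks A
    (show P.rk F + 1 ≤ n + 1 by have := rk_le P G; omega)
  exact ⟨H, flag_lt P.rk_strictMono A hF hH (by omega), flag_lt P.rk_strictMono A hH hG (by omega)⟩

/-- a path inside `S` can be reversed -/
lemma rtg_symm {α : Type} [LE α] {S : Set α} {a b : α} (ha : a ∈ S)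
    (h : Relation.ReflTransGen (fun a b => b ∈ S ∧ (a ≤ b ∨ b ≤ a)) a b) :
    b ∈ S ∧ Relation.ReflTransGen (fun a b => b ∈ S ∧ (a ≤ b ∨ b ≤ a)) b a := by
  induction h with
  | refl => exact ⟨ha, Relation.ReflTransGen.refl⟩
  | tail _ hstep ih =>
    rename_i b c _
    exact ⟨hstep.1, Relation.ReflTransGen.head ⟨ih.1, hstep.2.symm⟩ ih.2⟩

/-- sections of rank at least two of a polytope are connected -/
theorem sections_connected (P : Polytope n) (F G : P.Face) (hr : P.rk F + 3 ≤ P.rk G) :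
    ∀ H ∈ Set.Ioo F G, ∀ K ∈ Set.Ioo F G,
      Relation.ReflTransGen (fun a b => b ∈ Set.Ioo F G ∧ (a ≤ b ∨ b ≤ a)) H K := by
  intro H hH K hK
  obtain ⟨A, hFA, hHA, hGA⟩ := exists_flag_triple P hH.1.le hH.2.le
  obtain ⟨B, hFB, hKB, hGB⟩ := exists_flag_triple P hK.1.le hK.2.le
  have hpath := P.connected A B
  have claim : ∀ C : Flag P.Face, Relation.ReflTransGen
      (fun C D : Flag P.Face => FlagAdj C D ∧ (A : Set P.Face) ∩ B ⊆ D) A C →
      F ∈ C ∧ G ∈ C ∧ ∀ z ∈ C, z ∈ Set.Ioo F G →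
        Relation.ReflTransGen (fun a b => b ∈ Set.Ioo F G ∧ (a ≤ b ∨ b ≤ a)) H z := by
    intro C hC
    induction hC with
    | refl =>
      refine ⟨hFA, hGA, ?_⟩
      intro z hz hzI
      exact Relation.ReflTransGen.single ⟨hzI, A.le_or_le hHA hz⟩
    | tail _ hstep ih =>
      rename_i C D _
      obtain ⟨hFC, hGC, hih⟩ := ih
      obtain ⟨hadj, hsub⟩ := hstep
      have hFD : F ∈ D := hsub ⟨hFA, hFB⟩
      have hGD : G ∈ D := hsub ⟨hGA, hGB⟩
      refine ⟨hFD, hGD, ?_⟩
      have hm := P.rk_strictMono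
      have hGle := rk_le P G
      obtain ⟨w1, hw1, hr1⟩ := flag_exists P.flag_ranks C (show P.rk F + 1 ≤ n + 1 by omega)
      obtain ⟨w2, hw2, hr2⟩ := flag_exists P.flag_ranks C (show P.rk F + 2 ≤ n + 1 by omega)
      have hI1 : w1 ∈ Set.Ioo F G :=
        ⟨flag_lt hm C hFC hw1 (by omega), flag_lt hm C hw1 hGC (by omega)⟩
      have hI2 : w2 ∈ Set.Ioo F G :=
        ⟨flag_lt hm C hFC hw2 (by omega), flag_lt hm C hw2 hGC (by omega)⟩
      obtain ⟨w, hwC, hwD, hwI⟩ : ∃ w, w ∈ C ∧ w ∈ D ∧ w ∈ Set.Ioo F G := by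
        by_cases h1 : w1 ∈ D
        · exact ⟨w1, hw1, h1, hI1⟩
        · by_cases h2 : w2 ∈ D
          · exact ⟨w2, hw2, h2, hI2⟩
          · exfalso
            obtain ⟨x, hx⟩ := Set.ncard_eq_one.mp hadj.1
            have e1 : w1 ∈ (C : Set P.Face) \ D := ⟨hw1, h1⟩
            have e2 : w2 ∈ (C : Set P.Face) \ D := ⟨hw2, h2⟩
            rw [hx] at e1 e2
            have e1' : w1 = x := e1
            have e2' : w2 = x := e2
            rw [e1'] at hr1
            rw [e2'] at hr2
            omega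
      intro z hz hzI
      exact (hih w hwC hwI).tail ⟨hzI, D.le_or_le hwD hz⟩
  exact (claim B hpath).2.2 K hKB hK

end sections

namespace Glue

variable {n : ℕ} {P : Polytope n} {D : Glue P}

/-- the face `F` of the cell `v` as a face of the tree -/
noncomputable def ι (v : List P.Face) (hv : D.Valid v) (F : P.Face) : WithTop D.Cell :=
  ((face F v hv : D.Cell) : WithTop D.Cell)

lemma ι_le {v : List P.Face} {hv : D.Valid v} {F G : P.Face} :
    ι v hv F ≤ ι v hv G ↔ F ≤ G := by
  rw [ι, ι, WithTop.coe_le_coe, face_le_face]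

lemma ι_lt {v : List P.Face} {hv : D.Valid v} {F G : P.Face} :
    ι v hv F < ι v hv G ↔ F < G := by
  rw [ι, ι, WithTop.coe_lt_coe, face_lt_face]

lemma ι_inj {v : List P.Face} {hv : D.Valid v} {F G : P.Face} (h : ι v hv F = ι v hv G) :
    F = G := face_inj (WithTop.coe_injective h)

lemma ι_lt_top {v : List P.Face} {hv : D.Valid v} {F : P.Face} : ι v hv F < ⊤ :=
  WithTop.coe_lt_top _

lemma below {v : List P.Face} {hv : D.Valid v} {G : P.Face} {p : WithTop D.Cell}
    (h : p ≤ ι v hv G) : ∃ H, H ≤ G ∧ ι v hv H = p := by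
  induction p using WithTop.recTopCoe with
  | top => exact absurd (lt_of_lt_of_le ι_lt_top h) (lt_irrefl _)
  | coe p =>
    obtain ⟨H, h1, h2⟩ := le_face (WithTop.coe_le_coe.mp h)
    exact ⟨H, h1, congrArg _ h2⟩

lemma ι_rk {v : List P.Face} {hv : D.Valid v} {F : P.Face} : rkT (ι v hv F) = P.rk F :=
  rkT_face F v hv

/-- canonical representatives -/
lemma cases_canon (p : WithTop D.Cell) :
    p = ⊤ ∨ ∃ F v, ∃ hv : D.Valid v, ¬ D.Blocked F v ∧ p = ι v hv F := by
  induction p using WithTop.recTopCoe with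
  | top => exact Or.inl rfl
  | coe p => exact Or.inr ⟨p.1.1, p.1.2, p.2.1, p.2.2, by rw [ι, face_self]⟩

lemma ι_eq {v w : List P.Face} {hv : D.Valid v} {hw : D.Valid w} {F G : P.Face}
    (h : ι v hv F = ι w hw G) : D.canon F v = D.canon G w :=
  congrArg Subtype.val (WithTop.coe_injective h)

lemma ι_eq_of {v w : List P.Face} {hv : D.Valid v} {hw : D.Valid w} {F G : P.Face}
    (h : D.canon F v = D.canon G w) : ι v hv F = ι w hw G := by
  rw [ι, ι]
  exact congrArg _ (Subtype.ext h)

lemma ι_cons {L : P.Face} {v : List P.Face} {hv : D.Valid (L :: v)} {F : P.Face}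
    (h : F ≤ D.bar L) : ι (L :: v) hv F = ι v hv.2.2 (D.fi L F) :=
  ι_eq_of (D.canon_pos h)

lemma ι_cons_f {L : P.Face} {v : List P.Face} {hv : D.Valid (L :: v)} {F : P.Face}
    (h : F ≤ L) : ι (L :: v) hv (D.f L F) = ι v hv.2.2 F := by
  rw [ι_cons ((D.iso L hv.1).f_le F h), (D.iso L hv.1).fi_f F h]

lemma ι_cons_bar {L : P.Face} {v : List P.Face} {hv : D.Valid (L :: v)} :
    ι (L :: v) hv (D.bar L) = ι v hv.2.2 L := by
  rw [ι_cons le_rfl, (D.iso L hv.1).fi_top]

/-- gradedness of the tree -/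
lemma tree_graded (p q : WithTop D.Cell) (hpq : p < q) (hr : rkT p + 2 ≤ rkT q) :
    ∃ r, p < r ∧ r < q := by
  rcases cases_canon q with rfl | ⟨G, v, hv, -, rfl⟩
  · rcases cases_canon p with rfl | ⟨F, v, hv, -, rfl⟩
    · exact absurd hpq (lt_irrefl _)
    · refine ⟨ι v hv ⊤, ?_, ι_lt_top⟩
      rw [ι_lt]
      rw [ι_rk, rkT_top] at hr
      apply lt_of_le_of_ne le_top
      rintro rfl
      rw [rk_top] at hr
      omega
  · obtain ⟨F, hF, rfl⟩ := below hpq.le
    rw [ι_lt] at hpq
    rw [ι_rk, ι_rk] at hr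
    obtain ⟨H, h1, h2⟩ := exists_between_rk P hpq hr
    exact ⟨ι v hv H, ι_lt.mpr h1, ι_lt.mpr h2⟩

/-- extending a reduced word by a facet which does not lead back -/
lemma cons_valid {K : P.Face} {v : List P.Face} (hK : P.rk K = n) (h : ¬ D.Blocked K v)
    (hv : D.Valid v) : D.Valid (K :: v) := ⟨hK, h, hv⟩

/-- the facets containing a given ridge -/
lemma facets_of_ridge {K : P.Face} {v : List P.Face} (hK : P.rk K = n) (hb : ¬ D.Blocked K v)
    (hv : D.Valid v) : Set.Ioo (ι v hv K) (⊤ : WithTop D.Cell) =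
      {ι v hv ⊤, ι (K :: v) (cons_valid hK hb hv) ⊤} := by
  have hKt : K < ⊤ := by
    apply lt_of_le_of_ne le_top
    rintro rfl
    rw [rk_top] at hK
    omega
  apply Set.Subset.antisymm
  · rintro q ⟨h1, h2⟩
    rcases cases_canon q with rfl | ⟨G, w, hw, -, rfl⟩
    · exact absurd h2 (lt_irrefl _)
    · have h3 := rkT_strict h1
      rw [ι_rk, ι_rk, hK] at h3
      have h4 : G = ⊤ := by
        apply eq_top_of_rk P
        have := rk_le P G
        omega
      subst h4
      obtain ⟨H, -, hH⟩ := below h1.le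
      have h5 := ι_eq hH
      rw [D.canon_of_not_blocked hb] at h5
      have h6 : P.rk H = n := by
        have := D.canon_rk (F := H) hw
        rw [h5] at this
        rw [← this]; exact hK
      cases w with
      | nil =>
        rw [canon_nil] at h5
        left
        have h7 : [] = v := congrArg Prod.snd h5
        subst h7
        rfl
      | cons L w =>
        by_cases h7 : H ≤ D.bar L
        · right
          have h8 : H = D.bar L := by
            by_contra hne
            have := P.rk_strictMono (lt_of_le_of_ne h7 hne)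
            rw [D.bar_rk hw.1] at this
            omega
          rw [D.canon_pos h7, h8, (D.iso L hw.1).fi_top, D.canon_of_not_blocked hw.2.1] at h5
          have h9 : L = K := congrArg Prod.fst h5
          have h10 : w = v := congrArg Prod.snd h5
          subst h9
          subst h10
          rfl
        · left
          rw [D.canon_neg h7] at h5
          have h10 : L :: w = v := congrArg Prod.snd h5
          subst h10
          rfl
  · rintro q (rfl | rfl)
    · exact ⟨ι_lt.mpr hKt, ι_lt_top⟩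
    · refine ⟨?_, ι_lt_top⟩
      rw [← ι_cons_bar (hv := cons_valid hK hb hv), ι_lt]
      apply lt_of_le_of_ne le_top
      intro h
      exact D.not_top_le_bar hK h.ge

lemma cell_ne {K : P.Face} {v : List P.Face} (hv : D.Valid v) (hv' : D.Valid (K :: v)) :
    ι v hv ⊤ ≠ ι (K :: v) hv' ⊤ := by
  intro h
  have h1 := ι_eq h
  rw [D.canon_top hv, D.canon_top hv'] at h1
  have h2 := congrArg (fun p => p.2.length) h1
  simp at h2

/-- the diamond condition for the tree -/
lemma tree_diamond (p q : WithTop D.Cell) (hpq : p < q) (hr : rkT q = rkT p + 2) :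
    (Set.Ioo p q).ncard = 2 := by
  rcases cases_canon q with rfl | ⟨G, v, hv, -, rfl⟩
  · rcases cases_canon p with rfl | ⟨K, v, hv, hb, rfl⟩
    · exact absurd hpq (lt_irrefl _)
    · rw [rkT_top, ι_rk] at hr
      have hK : P.rk K = n := by omega
      rw [facets_of_ridge hK hb hv]
      exact Set.ncard_pair (cell_ne hv _)
  · obtain ⟨F, hF, rfl⟩ := below hpq.le
    rw [ι_lt] at hpq
    rw [ι_rk, ι_rk] at hr
    rw [← P.diamond F G hpq hr]
    have : Set.Ioo (ι v hv F) (ι v hv G) = ι v hv '' Set.Ioo F G := by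
      apply Set.Subset.antisymm
      · rintro r ⟨h1, h2⟩
        obtain ⟨H, h3, rfl⟩ := below h2.le
        exact ⟨H, ⟨ι_lt.mp h1, ι_lt.mp h2⟩, rfl⟩
      · rintro _ ⟨H, ⟨h1, h2⟩, rfl⟩
        exact ⟨ι_lt.mpr h1, ι_lt.mpr h2⟩
    rw [this]
    exact Set.ncard_image_of_injective _ (fun _ _ h => ι_inj h)

/-- connectedness of the sections of the tree -/
lemma tree_sections (p q : WithTop D.Cell) (hpq : p < q) (hr : rkT p + 3 ≤ rkT q) :
    ∀ H ∈ Set.Ioo p q, ∀ K ∈ Set.Ioo p q,
      Relation.ReflTransGen (fun a b => b ∈ Set.Ioo p q ∧ (a ≤ b ∨ b ≤ a)) H K := by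
  rcases cases_canon q with rfl | ⟨G, v, hv, -, rfl⟩
  · rcases cases_canon p with rfl | ⟨F, v, hv, hb, rfl⟩
    · exact absurd hpq (lt_irrefl _)
    · rw [rkT_top, ι_rk] at hr
      have hcan := D.canon_of_not_blocked hb
      have hup : ∀ w (hw : D.Valid w) (H : P.Face), ι w hw H = ι v hv F →
          ι w hw ⊤ ∈ Set.Ioo (ι v hv F) ⊤ := by
        intro w hw H h
        refine ⟨?_, ι_lt_top⟩
        have h1 : P.rk H = P.rk F := by
          have := congrArg rkT h
          rwa [ι_rk, ι_rk] at this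
        rw [← h, ι_lt]
        apply lt_of_le_of_ne le_top
        rintro rfl
        rw [rk_top] at h1
        omega
      have claim1 : ∀ w (hw : D.Valid w) (H : P.Face), ι w hw H = ι v hv F →
          Relation.ReflTransGen (fun a b => b ∈ Set.Ioo (ι v hv F) ⊤ ∧ (a ≤ b ∨ b ≤ a))
            (ι v hv ⊤) (ι w hw ⊤) := by
        intro w
        induction w with
        | nil =>
          intro hw H h
          have h1 := ι_eq h
          rw [hcan, canon_nil] at h1
          have h2 : [] = v := congrArg Prod.snd h1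
          subst h2
          exact Relation.ReflTransGen.refl
        | cons L w ih =>
          intro hw H h
          by_cases h1 : H ≤ D.bar L
          · have h2 := h
            rw [ι_cons h1] at h2
            have h3 := ih hw.2.2 _ h2
            have h4 : ι w hw.2.2 L ∈ Set.Ioo (ι v hv F) ⊤ := by
              refine ⟨?_, ι_lt_top⟩
              rw [← h2, ι_lt]
              apply lt_of_le_of_ne ((D.iso L hw.1).fi_le H h1)
              intro h5
              rw [h5] at h2
              have h6 := congrArg rkT h2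
              rw [ι_rk, ι_rk, hw.1] at h6
              omega
            refine (h3.tail ⟨h4, Or.inr (ι_le.mpr le_top)⟩).tail ⟨hup _ hw H h, Or.inl ?_⟩
            rw [← ι_cons_bar (hv := hw)]
            exact ι_le.mpr le_top
          · have h2 := ι_eq h
            rw [hcan, D.canon_neg h1] at h2
            have h3 : L :: w = v := congrArg Prod.snd h2
            subst h3
            exact Relation.ReflTransGen.refl
      have claim2 : ∀ q ∈ Set.Ioo (ι v hv F) (⊤ : WithTop D.Cell),
          Relation.ReflTransGen (fun a b => b ∈ Set.Ioo (ι v hv F) ⊤ ∧ (a ≤ b ∨ b ≤ a))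
            (ι v hv ⊤) q := by
        intro q hq
        rcases cases_canon q with rfl | ⟨G, w, hw, -, rfl⟩
        · exact absurd hq.2 (lt_irrefl _)
        · obtain ⟨H, -, h1⟩ := below hq.1.le
          exact (claim1 w hw H h1).tail ⟨hq, Or.inr (ι_le.mpr le_top)⟩
      have hhub : ι v hv ⊤ ∈ Set.Ioo (ι v hv F) (⊤ : WithTop D.Cell) := hup v hv F rfl
      intro H hH K hK
      exact (rtg_symm hhub (claim2 H hH)).2.trans (claim2 K hK)
  · obtain ⟨F, hF, rfl⟩ := below hpq.le
    rw [ι_rk, ι_rk] at hr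
    intro H hH K hK
    obtain ⟨H, -, rfl⟩ := below hH.2.le
    obtain ⟨K, -, rfl⟩ := below hK.2.le
    have h1 := sections_connected P F G hr H ⟨ι_lt.mp hH.1, ι_lt.mp hH.2⟩ K
      ⟨ι_lt.mp hK.1, ι_lt.mp hK.2⟩
    clear hK
    induction h1 with
    | refl => exact Relation.ReflTransGen.refl
    | tail _ hstep ih =>
      obtain ⟨⟨h2, h3⟩, h4⟩ := hstep
      refine ih.tail ⟨⟨ι_lt.mpr h2, ι_lt.mpr h3⟩, ?_⟩
      rcases h4 with h4 | h4
      · exact Or.inl (ι_le.mpr h4)
      · exact Or.inr (ι_le.mpr h4)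

variable (D)

/-- the tree-like extension of `P` determined by the gluing data `D` -/
@[reducible]
noncomputable def tree : Polytope (n + 1) :=
  have hf : ∀ A : Flag (WithTop D.Cell), rkT '' (A : Set (WithTop D.Cell)) = Set.Iic (n + 1 + 1) :=
    flag_ranks_of_graded rkT_strict rfl tree_graded (by
      change rkT ((⊥ : D.Cell) : WithTop D.Cell) = 0
      change rkT (ι [] nil_valid ⊥) = 0
      rw [ι_rk, rk_bot])
  { Face := WithTop D.Cell
    rk := rkT
    rk_strictMono := rkT_strict
    flag_ranks := hf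
    diamond := tree_diamond
    connected := connected_of_sections rkT_strict hf tree_sections }

end Glue

namespace Glue

variable {n : ℕ} {P : Polytope n} {D : Glue P}

lemma ι_chart (v : List P.Face) (hv : D.Valid v) : IsChart P D.tree (ι v hv) where
  le_iff := fun _ _ => ι_le
  surj := by
    intro z hz
    obtain ⟨H, -, h⟩ := below hz
    exact ⟨H, h⟩

lemma facet_cases {F : WithTop D.Cell} (hF : rkT F = n + 1) : ∃ v hv, F = ι (D := D) v hv ⊤ := by
  rcases cases_canon F with rfl | ⟨G, v, hv, -, rfl⟩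
  · rw [rkT_top] at hF; omega
  · rw [ι_rk] at hF
    exact ⟨v, hv, by rw [eq_top_of_rk P hF]⟩

variable (D)

lemma tree_isExt : IsExt P D.tree := by
  intro F hF
  obtain ⟨v, hv, rfl⟩ := facet_cases hF
  exact ⟨ι v hv, ι_chart v hv, rfl⟩

/-- the facets of `X` are glued according to `D` -/
def OfType (X : Polytope (n + 1)) : Prop :=
  ∀ e, IsChart P X e → ∀ K, P.rk K = n →
    ∃ e', IsChart P X e' ∧ e' ⊤ ≠ e ⊤ ∧ ∀ x, x ≤ K → e' (D.f K x) = e x

lemma tree_ofType : D.OfType D.tree := by
  intro e he K hK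
  obtain ⟨v, hv, hvt⟩ := facet_cases (D := D) (F := e ⊤) (by
    have := he.rank ⊤
    rw [rk_top] at this
    exact this)
  obtain ⟨a, ha⟩ := he.transition (ι_chart v hv) hvt
  have hK1 : P.rk (a K) = n := by rw [rk_aut, hK]
  obtain ⟨a', ha'⟩ := D.equi K hK a
  by_cases hb : D.Blocked (a K) v
  · cases v with
    | nil => exact hb.elim
    | cons L w =>
      have hL := hv.1
      have hbar : a K = D.bar L := by
        by_contra hne
        have := P.rk_strictMono (lt_of_le_of_ne hb hne)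
        rw [D.bar_rk hL] at this
        omega
      obtain ⟨g', hg'⟩ := D.inv L hL
      refine ⟨fun x => ι w hv.2.2 (g'.symm (a' x)),
        (ι_chart w hv.2.2).comp_aut (a'.trans g'.symm), ?_, ?_⟩
      · beta_reduce
        rw [map_top, map_top, hvt]
        exact cell_ne hv.2.2 hv
      · intro x hx
        have h1 : a x ≤ D.bar L := by rw [← hbar]; exact a.monotone hx
        have h2 : g'.symm (a' (D.f K x)) = D.fi L (a x) := by
          rw [ha' x hx, hbar, ← hg' (a x) h1, g'.symm_apply_apply]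
        beta_reduce
        rw [h2, ← ha x, ι_cons h1]
  · have hv' : D.Valid (a K :: v) := cons_valid hK1 hb hv
    refine ⟨fun x => ι (a K :: v) hv' (a' x), (ι_chart _ hv').comp_aut a', ?_, ?_⟩
    · beta_reduce
      rw [map_top, hvt]
      exact (cell_ne hv hv').symm
    · intro x hx
      have h1 : a x ≤ a K := a.monotone hx
      beta_reduce
      rw [ha' x hx, ι_cons_f h1, ha x]

variable {D}

lemma dev_exists {X : Polytope (n + 1)} (hX : D.OfType X) {e0 : P.Face → X.Face}
    (he0 : IsChart P X e0) : ∃ d : List P.Face → P.Face → X.Face, d [] = e0 ∧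
      (∀ v, IsChart P X (d v)) ∧ ∀ K v, P.rk K = n → d (K :: v) ⊤ ≠ d v ⊤ ∧
        ∀ x, x ≤ K → d (K :: v) (D.f K x) = d v x := by
  classical
  have hX' : ∀ (e : {e // IsChart P X e}) (K : {K // P.rk K = n}), ∃ e' : {e // IsChart P X e},
      e'.1 ⊤ ≠ e.1 ⊤ ∧ ∀ x, x ≤ K.1 → e'.1 (D.f K.1 x) = e.1 x := by
    rintro ⟨e, he⟩ ⟨K, hK⟩
    obtain ⟨e', he', h1, h2⟩ := hX e he K hK
    exact ⟨⟨e', he'⟩, h1, h2⟩
  choose nxt h1 h2 using hX'
  let d : List P.Face → {e // IsChart P X e} :=
    List.foldr (fun K e => if h : P.rk K = n then nxt e ⟨K, h⟩ else e) ⟨e0, he0⟩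
  have hd : ∀ K v, (h : P.rk K = n) → d (K :: v) = nxt (d v) ⟨K, h⟩ := by
    intro K v h
    change (if h : P.rk K = n then nxt (d v) ⟨K, h⟩ else d v) = _
    rw [dif_pos h]
  refine ⟨fun v => (d v).1, rfl, fun v => (d v).2, ?_⟩
  intro K v hK
  have h3 := h1 (d v) ⟨K, hK⟩
  have h4 := h2 (d v) ⟨K, hK⟩
  rw [← hd K v hK] at h3 h4
  exact ⟨h3, h4⟩

/-- the development of the tree into an extension of the same type -/
theorem develop {X : Polytope (n + 1)} (hX : D.OfType X) {e0 : P.Face → X.Face}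
    (he0 : IsChart P X e0) : ∃ π : WithTop D.Cell → X.Face, PreCov D.tree X π ∧
      (∀ F, π (ι [] nil_valid F) = e0 F) ∧
      ∀ v (hv : D.Valid v), IsChart P X (fun F => π (ι v hv F)) := by
  obtain ⟨d, hd0, hdc, hds⟩ := dev_exists hX he0
  have hcan : ∀ v (_ : D.Valid v) (F : P.Face), d (D.canon F v).2 (D.canon F v).1 = d v F := by
    intro v
    induction v with
    | nil => intro _ F; rfl
    | cons L v ih =>
      intro hv F
      by_cases h : F ≤ D.bar L
      · rw [D.canon_pos h, ih hv.2.2]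
        rw [← (hds L v hv.1).2 _ ((D.iso L hv.1).fi_le F h), (D.iso L hv.1).f_fi F h]
      · rw [D.canon_neg h]
  let π : WithTop D.Cell → X.Face
    | none => ⊤
    | some p => d p.1.2 p.1.1
  have hπt : π ⊤ = ⊤ := rfl
  have hπι : ∀ v (hv : D.Valid v) F, π (ι v hv F) = d v F := fun v hv F => hcan v hv F
  have hX2 : X.rk ⊤ = n + 2 := rk_top X
  refine ⟨π, ⟨?_, ?_, ?_⟩, ?_, ?_⟩
  · intro p q hpq
    rcases cases_canon q with rfl | ⟨G, v, hv, -, rfl⟩
    · exact le_top
    · obtain ⟨H, h1, rfl⟩ := below hpq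
      rw [hπι, hπι]
      exact ((hdc v).le_iff _ _).mpr h1
  · intro p
    rcases cases_canon p with rfl | ⟨G, v, hv, -, rfl⟩
    · exact hX2
    · rw [hπι, (hdc v).rank]
      exact ι_rk.symm
  · intro F x y G h1 h2 h3 h4 hr he
    rcases cases_canon G with rfl | ⟨G, v, hv, -, rfl⟩
    · rcases cases_canon F with rfl | ⟨K, v, hv, hb, rfl⟩
      · exact absurd (h1.trans h2) (lt_irrefl _)
      · have hK : P.rk K = n := by
          have h5 : rkT (⊤ : WithTop D.Cell) = rkT (ι v hv K) + 2 := hr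
          rw [rkT_top, ι_rk] at h5
          omega
        have hx : x ∈ Set.Ioo (ι v hv K) (⊤ : WithTop D.Cell) := ⟨h1, h2⟩
        have hy : y ∈ Set.Ioo (ι v hv K) (⊤ : WithTop D.Cell) := ⟨h3, h4⟩
        rw [facets_of_ridge hK hb hv] at hx hy
        have hne := (hds K v hK).1
        rcases hx with rfl | rfl <;> rcases hy with rfl | rfl
        · rfl
        · rw [hπι, hπι] at he
          exact absurd he.symm hne
        · rw [hπι, hπι] at he
          exact absurd he hne
        · rfl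
    · obtain ⟨x, -, rfl⟩ := below (le_of_lt h2)
      obtain ⟨y, -, rfl⟩ := below (le_of_lt h4)
      rw [hπι, hπι] at he
      rw [(hdc v).inj he]
  · intro F
    rw [hπι, hd0]
  · intro v hv
    have : (fun F => π (ι v hv F)) = d v := by
      funext F
      exact hπι v hv F
    rw [this]
    exact hdc v

variable (D)

lemma tree_move {e : P.Face → D.tree.Face} (he : IsChart P D.tree e) :
    ∃ g : D.tree.Face ≃o D.tree.Face, ∀ x, g (ι [] nil_valid x) = e x := by
  obtain ⟨π, hπ, hπ0, hπc⟩ := develop D.tree_ofType he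
  obtain ⟨p, hp⟩ := hπ.surj (ι [] nil_valid ⊤)
  have hpr : rkT p = n + 1 := by
    have h1 := hπ.rank p
    rw [hp] at h1
    have h2 : rkT (ι [] (nil_valid (D := D)) ⊤) = rkT p := h1
    rw [← h2, ι_rk, rk_top]
  obtain ⟨v, hv, rfl⟩ := facet_cases hpr
  obtain ⟨a, ha⟩ := (ι_chart (D := D) [] nil_valid).transition (hπc v hv) hp.symm
  obtain ⟨ρ, hρ, hρ0, -⟩ := develop D.tree_ofType ((ι_chart v hv).comp_aut a)
  have hcomp : π ∘ ρ = id := by
    obtain ⟨Φ, _⟩ := exists_flag P ⊥
    obtain ⟨A, hA⟩ := (ι_chart (D := D) [] nil_valid).ext_flag Φ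
    apply (hπ.comp hρ).agree (PreCov.id D.tree) A
    intro x hx
    have hx' : x ∈ (A : Set D.tree.Face) := hx
    rw [hA] at hx'
    rcases hx' with rfl | ⟨y, hy, rfl⟩
    · apply eq_top_of_rk D.tree
      rw [(hπ.comp hρ).rank, rk_top]
    · change π (ρ (ι [] nil_valid y)) = ι [] nil_valid y
      rw [hρ0, ha]
  have hπρ : ∀ x, π (ρ x) = x := fun x => congrFun hcomp x
  have hρπ : ∀ x, ρ (π x) = x := by
    intro x
    obtain ⟨y, rfl⟩ := hρ.surj x
    rw [hπρ]
  refine ⟨⟨⟨π, ρ, hρπ, hπρ⟩, ?_⟩, hπ0⟩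
  intro x y
  constructor
  · intro h
    have := hρ.mono h
    change ρ (π x) ≤ ρ (π y) at this
    rwa [hρπ, hρπ] at this
  · intro h
    exact hπ.mono h

theorem tree_homog : Homog P D.tree := by
  intro e e' he he'
  obtain ⟨g, hg⟩ := D.tree_move he
  obtain ⟨g', hg'⟩ := D.tree_move he'
  refine ⟨g.symm.trans g', fun x => ?_⟩
  rw [OrderIso.trans_apply, ← hg, g.symm_apply_apply, hg']

theorem tree_orbit {k : ℕ} (hP : IsKOrbit k P) : IsKOrbit k D.tree :=
  (orbit_iff hP D.tree_isExt).mpr D.tree_homog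

end Glue

section exch

variable {n : ℕ} {P : Polytope n} {R : Polytope (n + 1)}

/-- the gluing of a ridge in a homogeneous extension is unique up to automorphisms of `P` -/
lemma glue_unique (hR : Homog P R) {e₁ e₁' e₂ e₂' : P.Face → R.Face} (h₁ : IsChart P R e₁)
    (h₁' : IsChart P R e₁') (h₂ : IsChart P R e₂) (h₂' : IsChart P R e₂') {K : P.Face}
    (hK : P.rk K = n) {f f' : P.Face → P.Face} (hf : ∀ x, x ≤ K → e₁' (f x) = e₁ x)
    (hf' : ∀ x, x ≤ K → e₂' (f' x) = e₂ x) (hne₁ : e₁' ⊤ ≠ e₁ ⊤) (hne₂ : e₂' ⊤ ≠ e₂ ⊤) :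
    ∃ a : P.Face ≃o P.Face, ∀ x, x ≤ K → a (f x) = f' x := by
  obtain ⟨g, hg⟩ := hR e₁ e₂ h₁ h₂
  have ht : g (e₁' ⊤) = e₂' ⊤ := by
    apply other_unique (K := e₂ K) (G1 := e₂ ⊤)
    · rw [h₂.rank, hK]
    · rw [h₂.rank, rk_top]
    · rw [(h₁'.map g).rank ⊤, rk_top]
    · rw [h₂'.rank, rk_top]
    · exact h₂.le_top K
    · rw [← hg K, ← hf K le_rfl]
      exact g.monotone (h₁'.le_top _)
    · rw [← hf' K le_rfl]
      exact h₂'.le_top _
    · rw [← hg ⊤]
      intro h
      exact hne₁ (g.injective h)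
    · exact hne₂
  obtain ⟨a, ha⟩ := (h₁'.map g).transition h₂' ht
  refine ⟨a, fun x hx => ?_⟩
  apply h₂'.inj
  rw [ha, hf x hx, hg, hf' x hx]

/-- isomorphisms between facets of `P` along which copies of `P` can be glued homogeneously -/
structure Exch (P : Polytope n) (K K' : P.Face) (f fi : P.Face → P.Face) : Prop where
  iso : PIso P K K' f fi
  conj : ∀ a : P.Face ≃o P.Face, a K = K →
    ∃ b : P.Face ≃o P.Face, ∀ x, x ≤ K → b (f x) = f (a x)
  conj' : ∀ b : P.Face ≃o P.Face, b K' = K' →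
    ∃ a : P.Face ≃o P.Face, ∀ y, y ≤ K' → a (fi y) = fi (b y)
  back : ∀ c : P.Face ≃o P.Face, c K' = K →
    ∃ d : P.Face ≃o P.Face, ∀ x, x ≤ K → d x = f (c (f x))

lemma exch_of_homog (hR : Homog P R) {e e' : P.Face → R.Face} (he : IsChart P R e)
    (he' : IsChart P R e') (hne : e' ⊤ ≠ e ⊤) {K K' : P.Face} (hK : P.rk K = n)
    {f fi : P.Face → P.Face} (hiso : PIso P K K' f fi) (hf : ∀ x, x ≤ K → e' (f x) = e x) :
    Exch P K K' f fi := by
  have hK' : P.rk K' = n := by rw [hiso.rk_eq, hK]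
  have hfi : ∀ y, y ≤ K' → e (fi y) = e' y := by
    intro y hy
    rw [← hf _ (hiso.fi_le y hy), hiso.f_fi y hy]
  refine ⟨hiso, ?_, ?_, ?_⟩
  · intro a ha
    apply glue_unique hR he he' (he.comp_aut a) he' hK hf
    · intro x hx
      have : a x ≤ K := by rw [← ha]; exact a.monotone hx
      exact hf _ this
    · exact hne
    · beta_reduce
      rw [map_top]
      exact hne
  · intro b hb
    apply glue_unique hR he' he (he'.comp_aut b) he hK' hfi
    · intro y hy
      have : b y ≤ K' := by rw [← hb]; exact b.monotone hy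
      exact hfi _ this
    · exact hne.symm
    · beta_reduce
      rw [map_top]
      exact hne.symm
  · intro c hc
    have hcK : c.symm K = K' := by rw [← hc, c.symm_apply_apply]
    obtain ⟨a, ha⟩ := glue_unique hR (f := f) (f' := fun x => fi (c.symm x)) he he'
      (he'.comp_aut c.symm) he hK hf
      (by
        intro x hx
        have : c.symm x ≤ K' := by rw [← hcK]; exact c.symm.monotone hx
        exact hfi _ this)
      hne
      (by
        beta_reduce
        rw [map_top]
        exact hne.symm)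
    refine ⟨a.symm, fun x hx => ?_⟩
    have h1 : c (f x) ≤ K := by rw [← hc]; exact c.monotone (hiso.f_le x hx)
    have h2 := ha (c (f x)) h1
    rw [OrderIso.symm_apply_eq, h2]
    beta_reduce
    rw [c.symm_apply_apply, hiso.fi_f x hx]

/-- the transition between the two charts at a ridge -/
lemma exists_transition (hR : IsExt P R) {e : P.Face → R.Face} (he : IsChart P R e) {K : P.Face}
    (hK : P.rk K = n) : ∃ e', IsChart P R e' ∧ e' ⊤ ≠ e ⊤ ∧ ∃ K' f fi, PIso P K K' f fi ∧
      ∀ x, x ≤ K → e' (f x) = e x := by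
  obtain ⟨e', he', hne, hle⟩ := exists_other hR he hK
  refine ⟨e', he', hne, Function.invFun e' (e K), fun x => Function.invFun e' (e x),
    fun y => Function.invFun e (e' y), ?_, ?_⟩
  · have hf : ∀ x, x ≤ K → e' (Function.invFun e' (e x)) = e x := by
      intro x hx
      exact he'.inv_right (((he.le_iff _ _).mpr hx).trans hle)
    have hK' := hf K le_rfl
    have hfi : ∀ y, y ≤ Function.invFun e' (e K) → e (Function.invFun e (e' y)) = e' y := by
      intro y hy
      apply he.inv_right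
      rw [← he'.le_iff, hK'] at hy
      exact hy.trans (he.le_top K)
    refine ⟨?_, ?_, ?_, ?_, ?_, ?_⟩
    · intro x hx
      rw [← he'.le_iff, hf x hx, hK', he.le_iff]
      exact hx
    · intro y hy
      rw [← he.le_iff, hfi y hy, ← hK', he'.le_iff]
      exact hy
    · intro x hx
      beta_reduce
      rw [hf x hx, he.inv_left]
    · intro y hy
      beta_reduce
      rw [hfi y hy, he'.inv_left]
    · intro x y hxy hy
      rw [← he'.le_iff, hf x (hxy.trans hy), hf y hy, he.le_iff]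
      exact hxy
    · intro x y hxy hy
      rw [← he.le_iff, hfi x (hxy.trans hy), hfi y hy, he'.le_iff]
      exact hxy
  · intro x hx
    exact he'.inv_right (((he.le_iff _ _).mpr hx).trans hle)

/-- the gluing data in which each facet is glued to itself by the identity -/
def idGlue (P : Polytope n) : Glue P where
  bar := id
  f := fun _ x => x
  fi := fun _ x => x
  iso := fun K _ => ⟨fun _ h => h, fun _ h => h, fun _ _ => rfl, fun _ _ => rfl,
    fun _ _ h _ => h, fun _ _ h _ => h⟩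
  equi := fun _ _ g => ⟨g, fun _ _ => rfl⟩
  inv := fun _ _ => ⟨OrderIso.refl _, fun _ _ => rfl⟩

/-- all exchangeable isomorphisms are induced by automorphisms -/
def Cond (P : Polytope n) : Prop :=
  ∀ K K' f fi, P.rk K = n → Exch P K K' f fi → ∃ a : P.Face ≃o P.Face, ∀ x, x ≤ K → a x = f x

lemma ofType_id (hc : Cond P) (hR : IsExt P R) (hh : Homog P R) : (idGlue P).OfType R := by
  intro e he K hK
  obtain ⟨e', he', hne, K', f, fi, hiso, hf⟩ := exists_transition hR he hK
  obtain ⟨a, ha⟩ := hc K K' f fi hK (exch_of_homog hh he he' hne hK hiso hf)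
  refine ⟨fun x => e' (a x), he'.comp_aut a, ?_, ?_⟩
  · beta_reduce
    rw [map_top]
    exact hne
  · intro x hx
    change e' (a x) = e x
    rw [ha x hx, hf x hx]

lemma universal_of_cond {k : ℕ} (hP : IsKOrbit k P) (hc : Cond P) :
    IsUniversalKOrbitExtension k P (idGlue P).tree where
  extension := ⟨(isExt_iff _ _).mp (idGlue P).tree_isExt, (idGlue P).tree_orbit hP⟩
  covers := by
    intro R hR
    have hext := (isExt_iff _ _).mpr hR.facets
    have hh := (orbit_iff hP hext).mp hR.orbits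
    obtain ⟨A, _⟩ := exists_flag R ⊥
    obtain ⟨F, _, hr⟩ := flag_exists R.flag_ranks A (show n + 1 ≤ n + 1 + 1 by omega)
    obtain ⟨e, he, _⟩ := hext F hr
    obtain ⟨π, hπ, -, -⟩ := Glue.develop (ofType_id hc hext hh) he
    exact ⟨π, hπ.isCovering⟩

section swap

variable {K₀ K₀' : P.Face} {f fi : P.Face → P.Face}

open Classical in
/-- the gluing data in which the facets equivalent to `K₀` are glued by `f` -/
noncomputable def swapBar (P : Polytope n) (K₀ K₀' : P.Face) (K : P.Face) : P.Face :=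
  if ∃ g : P.Face ≃o P.Face, g K = K₀ then K₀' else
    if ∃ g : P.Face ≃o P.Face, g K = K₀' then K₀ else K

open Classical in
noncomputable def swapF (P : Polytope n) (K₀ K₀' : P.Face) (f fi : P.Face → P.Face)
    (K x : P.Face) : P.Face :=
  if h : ∃ g : P.Face ≃o P.Face, g K = K₀ then f (h.choose x) else
    if h' : ∃ g : P.Face ≃o P.Face, g K = K₀' then fi (h'.choose x) else x

open Classical in
noncomputable def swapFi (P : Polytope n) (K₀ K₀' : P.Face) (f fi : P.Face → P.Face)
    (K y : P.Face) : P.Face :=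
  if h : ∃ g : P.Face ≃o P.Face, g K = K₀ then h.choose.symm (fi y) else
    if h' : ∃ g : P.Face ≃o P.Face, g K = K₀' then h'.choose.symm (f y) else y

lemma swap_A {K : P.Face} (h : ∃ g : P.Face ≃o P.Face, g K = K₀) :
    ∃ γ : P.Face ≃o P.Face, γ K = K₀ ∧ swapBar P K₀ K₀' K = K₀' ∧
      (∀ x, swapF P K₀ K₀' f fi K x = f (γ x)) ∧
      (∀ y, swapFi P K₀ K₀' f fi K y = γ.symm (fi y)) := by
  refine ⟨h.choose, h.choose_spec, ?_, ?_, ?_⟩
  · rw [swapBar, if_pos h]
  · intro x; rw [swapF, dif_pos h]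
  · intro x; rw [swapFi, dif_pos h]

lemma swap_B {K : P.Face} (h : ¬ ∃ g : P.Face ≃o P.Face, g K = K₀)
    (h' : ∃ g : P.Face ≃o P.Face, g K = K₀') :
    ∃ γ : P.Face ≃o P.Face, γ K = K₀' ∧ swapBar P K₀ K₀' K = K₀ ∧
      (∀ x, swapF P K₀ K₀' f fi K x = fi (γ x)) ∧
      (∀ y, swapFi P K₀ K₀' f fi K y = γ.symm (f y)) := by
  refine ⟨h'.choose, h'.choose_spec, ?_, ?_, ?_⟩
  · rw [swapBar, if_neg h, if_pos h']
  · intro x; rw [swapF, dif_neg h, dif_pos h']
  · intro x; rw [swapFi, dif_neg h, dif_pos h']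

lemma swap_C {K : P.Face} (h : ¬ ∃ g : P.Face ≃o P.Face, g K = K₀)
    (h' : ¬ ∃ g : P.Face ≃o P.Face, g K = K₀') :
    swapBar P K₀ K₀' K = K ∧ (∀ x, swapF P K₀ K₀' f fi K x = x) ∧
      (∀ y, swapFi P K₀ K₀' f fi K y = y) := by
  refine ⟨?_, ?_, ?_⟩
  · rw [swapBar, if_neg h, if_neg h']
  · intro x; rw [swapF, dif_neg h, dif_neg h']
  · intro x; rw [swapFi, dif_neg h, dif_neg h']

lemma PIso.pre {K K₁ K₁' : P.Face} {f fi F Fi : P.Face → P.Face} (h : PIso P K₁ K₁' f fi)
    (γ : P.Face ≃o P.Face) (hγ : γ K = K₁) (hF : ∀ x, F x = f (γ x))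
    (hFi : ∀ y, Fi y = γ.symm (fi y)) : PIso P K K₁' F Fi := by
  have hle : ∀ x, x ≤ K → γ x ≤ K₁ := fun x hx => by rw [← hγ]; exact γ.monotone hx
  have hγ' : γ.symm K₁ = K := by rw [← hγ, γ.symm_apply_apply]
  refine ⟨?_, ?_, ?_, ?_, ?_, ?_⟩
  · intro x hx
    rw [hF]; exact h.f_le _ (hle x hx)
  · intro y hy
    rw [hFi, ← hγ']
    exact γ.symm.monotone (h.fi_le y hy)
  · intro x hx
    rw [hF, hFi, h.fi_f _ (hle x hx), γ.symm_apply_apply]
  · intro y hy
    rw [hF, hFi, γ.apply_symm_apply, h.f_fi y hy]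
  · intro x y hxy hy
    rw [hF, hF]
    exact h.f_mono _ _ (γ.monotone hxy) (hle y hy)
  · intro x y hxy hy
    rw [hFi, hFi]
    exact γ.symm.monotone (h.fi_mono _ _ hxy hy)

/-- the gluing data obtained from an exchangeable isomorphism -/
noncomputable def swapGlue (h : Exch P K₀ K₀' f fi) : Glue P where
  bar := swapBar P K₀ K₀'
  f := swapF P K₀ K₀' f fi
  fi := swapFi P K₀ K₀' f fi
  iso := by
    intro K _
    by_cases h1 : ∃ g : P.Face ≃o P.Face, g K = K₀
    · obtain ⟨γ, e1, e2, e3, e4⟩ := swap_A (f := f) (fi := fi) (K₀' := K₀') h1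
      rw [e2]
      exact h.iso.pre γ e1 e3 e4
    · by_cases h2 : ∃ g : P.Face ≃o P.Face, g K = K₀'
      · obtain ⟨γ, e1, e2, e3, e4⟩ := swap_B (f := f) (fi := fi) h1 h2
        rw [e2]
        exact h.iso.symm.pre γ e1 e3 e4
      · obtain ⟨e2, e3, e4⟩ := swap_C (f := f) (fi := fi) h1 h2
        rw [e2]
        refine ⟨?_, ?_, ?_, ?_, ?_, ?_⟩ <;> intros <;> simp only [e3, e4] <;> assumption
  equi := by
    intro K _ g
    by_cases h1 : ∃ g : P.Face ≃o P.Face, g K = K₀
    · obtain ⟨γ, e1, e2, e3, e4⟩ := swap_A (f := f) (fi := fi) (K₀' := K₀') h1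
      have h1' : ∃ g' : P.Face ≃o P.Face, g' (g K) = K₀ :=
        ⟨g.symm.trans γ, by rw [OrderIso.trans_apply, g.symm_apply_apply, e1]⟩
      obtain ⟨γ', e1', e2', e3', e4'⟩ := swap_A (f := f) (fi := fi) (K₀' := K₀') h1'
      obtain ⟨b, hb⟩ := h.conj ((γ.symm.trans g).trans γ') (by
        rw [OrderIso.trans_apply, OrderIso.trans_apply, ← e1, γ.symm_apply_apply, e1', e1])
      refine ⟨b, fun x hx => ?_⟩
      have hx' : γ x ≤ K₀ := by rw [← e1]; exact γ.monotone hx
      rw [e3, e3', hb _ hx', OrderIso.trans_apply, OrderIso.trans_apply, γ.symm_apply_apply]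
    · have h1' : ¬ ∃ g' : P.Face ≃o P.Face, g' (g K) = K₀ := by
        rintro ⟨g', hg'⟩
        exact h1 ⟨g.trans g', hg'⟩
      by_cases h2 : ∃ g : P.Face ≃o P.Face, g K = K₀'
      · obtain ⟨γ, e1, e2, e3, e4⟩ := swap_B (f := f) (fi := fi) h1 h2
        have h2' : ∃ g' : P.Face ≃o P.Face, g' (g K) = K₀' :=
          ⟨g.symm.trans γ, by rw [OrderIso.trans_apply, g.symm_apply_apply, e1]⟩
        obtain ⟨γ', e1', e2', e3', e4'⟩ := swap_B (f := f) (fi := fi) h1' h2'
        obtain ⟨b, hb⟩ := h.conj' ((γ.symm.trans g).trans γ') (by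
          rw [OrderIso.trans_apply, OrderIso.trans_apply, ← e1, γ.symm_apply_apply, e1', e1])
        refine ⟨b, fun x hx => ?_⟩
        have hx' : γ x ≤ K₀' := by rw [← e1]; exact γ.monotone hx
        rw [e3, e3', hb _ hx', OrderIso.trans_apply, OrderIso.trans_apply, γ.symm_apply_apply]
      · have h2' : ¬ ∃ g' : P.Face ≃o P.Face, g' (g K) = K₀' := by
          rintro ⟨g', hg'⟩
          exact h2 ⟨g.trans g', hg'⟩
        obtain ⟨e2, e3, e4⟩ := swap_C (f := f) (fi := fi) h1 h2
        obtain ⟨e2', e3', e4'⟩ := swap_C (f := f) (fi := fi) h1' h2'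
        refine ⟨g, fun x hx => ?_⟩
        rw [e3, e3']
  inv := by
    intro K _
    by_cases h1 : ∃ g : P.Face ≃o P.Face, g K = K₀
    · obtain ⟨γ, e1, e2, e3, e4⟩ := swap_A (f := f) (fi := fi) (K₀' := K₀') h1
      rw [e2]
      by_cases h3 : ∃ g : P.Face ≃o P.Face, g K₀' = K₀
      · obtain ⟨γ', e1', e2', e3', e4'⟩ := swap_A (f := f) (fi := fi) (K₀' := K₀') h3
        obtain ⟨d, hd⟩ := h.back γ' e1'
        refine ⟨γ.trans d, fun y hy => ?_⟩
        rw [e4, e3', OrderIso.trans_apply, γ.apply_symm_apply, hd _ (h.iso.fi_le y hy),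
          h.iso.f_fi y hy]
      · obtain ⟨γ', e1', e2', e3', e4'⟩ := swap_B (f := f) (fi := fi) (K₀' := K₀') h3
          ⟨OrderIso.refl _, rfl⟩
        obtain ⟨a, ha⟩ := h.conj' γ' e1'
        refine ⟨γ.trans a, fun y hy => ?_⟩
        rw [e4, e3', OrderIso.trans_apply, γ.apply_symm_apply, ha y hy]
    · by_cases h2 : ∃ g : P.Face ≃o P.Face, g K = K₀'
      · obtain ⟨γ, e1, e2, e3, e4⟩ := swap_B (f := f) (fi := fi) h1 h2
        rw [e2]
        obtain ⟨γ', e1', e2', e3', e4'⟩ := swap_A (f := f) (fi := fi) (K₀ := K₀) (K₀' := K₀')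
          ⟨OrderIso.refl _, rfl⟩
        obtain ⟨b, hb⟩ := h.conj γ' e1'
        refine ⟨γ.trans b, fun y hy => ?_⟩
        rw [e4, e3', OrderIso.trans_apply, γ.apply_symm_apply, hb y hy]
      · obtain ⟨e2, e3, e4⟩ := swap_C (f := f) (fi := fi) h1 h2
        rw [e2]
        refine ⟨OrderIso.refl _, fun y hy => ?_⟩
        rw [e3, e4]
        rfl

lemma swapGlue_f (h : Exch P K₀ K₀' f fi) : ∃ b : P.Face ≃o P.Face,
    ∀ x, x ≤ K₀ → (swapGlue h).f K₀ x = b (f x) := by
  obtain ⟨γ, e1, e2, e3, e4⟩ := swap_A (f := f) (fi := fi) (K₀ := K₀) (K₀' := K₀') (K := K₀)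
    ⟨OrderIso.refl _, rfl⟩
  obtain ⟨b, hb⟩ := h.conj γ e1
  refine ⟨b, fun x hx => ?_⟩
  rw [hb x hx]
  exact e3 x

end swap

/-- a covering of a glued extension by a homogeneous one determines the gluing -/
lemma covering_type {k : ℕ} (hP : IsKOrbit k P) (D : Glue P) {U : Polytope (n + 1)}
    {π : U.Face → D.tree.Face} (hπ : PreCov U D.tree π) {e e' : P.Face → U.Face}
    (he : IsChart P U e) (he' : IsChart P U e') (hne : e' ⊤ ≠ e ⊤) {K : P.Face}
    (hK : P.rk K = n) {g : P.Face → P.Face} (hg : ∀ x, x ≤ K → e' (g x) = e x) :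
    ∃ a : P.Face ≃o P.Face, ∀ x, x ≤ K → a (g x) = D.f K x := by
  have hfin : Finite (Quotient (flagOrbits P.Face)) :=
    Nat.finite_of_card_ne_zero (by rw [hP.2]; exact hP.1.ne')
  have h1 := hπ.chart D.tree_isExt he
  have h2 := hπ.chart D.tree_isExt he'
  obtain ⟨e₂', h3, h4, h5⟩ := D.tree_ofType _ h1 K hK
  apply glue_unique D.tree_homog h1 h2 h1 h3 hK
  · intro x hx
    beta_reduce
    rw [hg x hx]
  · exact h5
  · beta_reduce
    intro heq
    apply hne
    have hrt : U.rk ⊤ = n + 2 := rk_top U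
    have hr1 : U.rk (e ⊤) = n + 1 := by rw [he.rank, rk_top]
    have hr2 : U.rk (e' ⊤) = n + 1 := by rw [he'.rank, rk_top]
    have hrK : U.rk (e K) = n := by rw [he.rank, hK]
    have hle : e K ≤ e' ⊤ := by rw [← hg K le_rfl]; exact he'.le_top _
    apply hπ.dinj (e K) (e' ⊤) (e ⊤) ⊤
    · exact lt_of_le_of_ne hle (fun h => by rw [h] at hrK; omega)
    · exact lt_of_le_of_ne le_top (fun h => by rw [h] at hr2; omega)
    · exact lt_of_le_of_ne (he.le_top K) (fun h => by rw [h] at hrK; omega)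
    · exact lt_of_le_of_ne le_top (fun h => by rw [h] at hr1; omega)
    · omega
    · exact heq
  · exact h4

lemma cond_of_universal {k : ℕ} (hP : IsKOrbit k P) {U : Polytope (n + 1)}
    (hU : IsUniversalKOrbitExtension k P U) : Cond P := by
  intro K K' f fi hK hex
  have hext := (isExt_iff _ _).mpr hU.extension.facets
  obtain ⟨A, _⟩ := exists_flag U ⊥
  obtain ⟨F, _, hr⟩ := flag_exists U.flag_ranks A (show n + 1 ≤ n + 1 + 1 by omega)
  obtain ⟨e, he, _⟩ := hext F hr
  obtain ⟨e', he', hne, K'', g, gi, hiso, hg⟩ := exists_transition hext he hK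
  obtain ⟨π, hπ⟩ := hU.covers (idGlue P).tree
    ⟨(isExt_iff _ _).mp (idGlue P).tree_isExt, (idGlue P).tree_orbit hP⟩
  obtain ⟨ρ, hρ⟩ := hU.covers (swapGlue hex).tree
    ⟨(isExt_iff _ _).mp (swapGlue hex).tree_isExt, (swapGlue hex).tree_orbit hP⟩
  obtain ⟨a, ha⟩ := covering_type hP (idGlue P) hπ.preCov he he' hne hK hg
  obtain ⟨b, hb⟩ := covering_type hP (swapGlue hex) hρ.preCov he he' hne hK hg
  obtain ⟨c, hc⟩ := swapGlue_f hex
  refine ⟨(a.symm.trans b).trans c.symm, fun x hx => ?_⟩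
  have h1 : a (g x) = x := ha x hx
  rw [OrderIso.trans_apply, OrderIso.trans_apply, OrderIso.symm_apply_eq, ← hc x hx, ← hb x hx]
  congr 1
  rw [OrderIso.symm_apply_eq, h1]

theorem universal_iff_cond {k : ℕ} (hP : IsKOrbit k P) :
    (∃ U : Polytope (n + 1), IsUniversalKOrbitExtension k P U) ↔ Cond P :=
  ⟨fun ⟨_, hU⟩ => cond_of_universal hP hU, fun h => ⟨_, universal_of_cond hP h⟩⟩

end exch

section groups

variable {n : ℕ} {P : Polytope n}

lemma exists_raw {K K' : P.Face} (φ : Set.Iic K ≃o Set.Iic K') : ∃ f fi : P.Face → P.Face,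
    PIso P K K' f fi ∧ (∀ x : Set.Iic K, f x = φ x) ∧ (∀ y : Set.Iic K', fi y = φ.symm y) := by
  classical
  let f : P.Face → P.Face := fun x => if h : x ≤ K then (φ ⟨x, h⟩ : Set.Iic K') else ⊥
  let fi : P.Face → P.Face := fun y => if h : y ≤ K' then (φ.symm ⟨y, h⟩ : Set.Iic K) else ⊥
  have hf : ∀ x (h : x ≤ K), f x = (φ ⟨x, h⟩ : Set.Iic K') := fun x h => dif_pos h
  have hfi : ∀ y (h : y ≤ K'), fi y = (φ.symm ⟨y, h⟩ : Set.Iic K) := fun y h => dif_pos h
  refine ⟨f, fi, ⟨?_, ?_, ?_, ?_, ?_, ?_⟩, fun x => hf x x.2, fun y => hfi y y.2⟩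
  · intro x hx
    rw [hf x hx]; exact (φ ⟨x, hx⟩).2
  · intro y hy
    rw [hfi y hy]; exact (φ.symm ⟨y, hy⟩).2
  · intro x hx
    rw [hfi _ (by rw [hf x hx]; exact (φ ⟨x, hx⟩).2)]
    have : (⟨f x, by rw [hf x hx]; exact (φ ⟨x, hx⟩).2⟩ : Set.Iic K') = φ ⟨x, hx⟩ :=
      Subtype.ext (hf x hx)
    rw [this, φ.symm_apply_apply]
  · intro y hy
    rw [hf _ (by rw [hfi y hy]; exact (φ.symm ⟨y, hy⟩).2)]
    have : (⟨fi y, by rw [hfi y hy]; exact (φ.symm ⟨y, hy⟩).2⟩ : Set.Iic K) = φ.symm ⟨y, hy⟩ :=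
      Subtype.ext (hfi y hy)
    rw [this, φ.apply_symm_apply]
  · intro x y hxy hy
    rw [hf x (hxy.trans hy), hf y hy]
    exact φ.monotone hxy
  · intro x y hxy hy
    rw [hfi x (hxy.trans hy), hfi y hy]
    exact φ.symm.monotone hxy

lemma exists_iso {K K' : P.Face} {f fi : P.Face → P.Face} (h : PIso P K K' f fi) :
    ∃ φ : Set.Iic K ≃o Set.Iic K', (∀ x : Set.Iic K, f x = φ x) ∧
      (∀ y : Set.Iic K', fi y = φ.symm y) := by
  refine ⟨⟨⟨fun x => ⟨f x, h.f_le x x.2⟩, fun y => ⟨fi y, h.fi_le y y.2⟩,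
    fun x => Subtype.ext (h.fi_f x x.2), fun y => Subtype.ext (h.f_fi y y.2)⟩, ?_⟩,
    fun _ => rfl, fun _ => rfl⟩
  intro x y
  constructor
  · intro hxy
    have := h.fi_mono _ _ hxy (h.f_le y y.2)
    change fi (f x) ≤ fi (f y) at this
    rwa [h.fi_f x x.2, h.fi_f y y.2] at this
  · intro hxy
    exact h.f_mono _ _ hxy y.2

lemma exists_restrict {K K' : P.Face} (c : P.Face ≃o P.Face) (hc : c K = K') :
    ∃ c' : Set.Iic K ≃o Set.Iic K', (∀ x : Set.Iic K, c x = c' x) ∧
      ∀ y : Set.Iic K', c.symm y = c'.symm y := by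
  apply exists_iso
  have hc' : c.symm K' = K := by rw [← hc, c.symm_apply_apply]
  refine ⟨?_, ?_, ?_, ?_, ?_, ?_⟩
  · intro x hx; rw [← hc]; exact c.monotone hx
  · intro y hy; rw [← hc']; exact c.symm.monotone hy
  · intro x _; exact c.symm_apply_apply x
  · intro y _; exact c.apply_symm_apply y
  · intro x y hxy _; exact c.monotone hxy
  · intro x y hxy _; exact c.symm.monotone hxy

lemma face_fixed {K : P.Face} {a : Set.Iic K ≃o Set.Iic K} {g : P.Face ≃o P.Face}
    (hg : ∀ x : Set.Iic K, g x = a x) : g K = K := by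
  have h1 : g K = a ⟨K, le_refl K⟩ := hg ⟨K, le_refl K⟩
  have h2 : a ⟨K, le_refl K⟩ = ⟨K, le_refl K⟩ := by
    apply le_antisymm
    · exact (a ⟨K, le_refl K⟩).2
    · have h3 : a.symm ⟨K, le_refl K⟩ ≤ ⟨K, le_refl K⟩ := (a.symm ⟨K, le_refl K⟩).2
      have h4 := a.monotone h3
      rwa [a.apply_symm_apply] at h4
  rw [h1, h2]

lemma conj_raw {K K' : P.Face} {φ : Set.Iic K ≃o Set.Iic K'} {f fi : P.Face → P.Face}
    (hf : ∀ x : Set.Iic K, f x = φ x) (hfi : ∀ y : Set.Iic K', fi y = φ.symm y)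
    (h : Conjugates φ) :
    (∀ a : P.Face ≃o P.Face, a K = K →
      ∃ b : P.Face ≃o P.Face, ∀ x, x ≤ K → b (f x) = f (a x)) ∧
    (∀ b : P.Face ≃o P.Face, b K' = K' →
      ∃ a : P.Face ≃o P.Face, ∀ y, y ≤ K' → a (fi y) = fi (b y)) := by
  constructor
  · intro a ha
    obtain ⟨a', ha', -⟩ := exists_restrict a ha
    obtain ⟨b, hb⟩ := (h a').mp ⟨a, ha'⟩
    refine ⟨b, fun x hx => ?_⟩
    have h1 := hb (φ ⟨x, hx⟩)
    have h2 : f x = φ ⟨x, hx⟩ := hf ⟨x, hx⟩
    have h3 : a x = a' ⟨x, hx⟩ := ha' ⟨x, hx⟩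
    rw [h2, h1, h3, hf]
    change ((φ (a' (φ.symm (φ ⟨x, hx⟩))) : Set.Iic K') : P.Face) = _
    rw [φ.symm_apply_apply]
  · intro b hb
    obtain ⟨b', hb', -⟩ := exists_restrict b hb
    obtain ⟨a, ha⟩ := (h ((φ.trans b').trans φ.symm)).mpr (by
      refine ⟨b, fun y => ?_⟩
      change b y = ((φ (φ.symm (b' (φ (φ.symm y)))) : Set.Iic K') : P.Face)
      rw [φ.apply_symm_apply, φ.apply_symm_apply, hb'])
    refine ⟨a, fun y hy => ?_⟩
    have h1 := ha (φ.symm ⟨y, hy⟩)
    have h2 : fi y = φ.symm ⟨y, hy⟩ := hfi ⟨y, hy⟩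
    have h3 : b y = b' ⟨y, hy⟩ := hb' ⟨y, hy⟩
    rw [h2, h1, h3, hfi]
    change ((φ.symm (b' (φ (φ.symm ⟨y, hy⟩))) : Set.Iic K) : P.Face) = _
    rw [φ.apply_symm_apply]

lemma raw_conj {K K' : P.Face} {φ : Set.Iic K ≃o Set.Iic K'} {f fi : P.Face → P.Face}
    (hf : ∀ x : Set.Iic K, f x = φ x) (hfi : ∀ y : Set.Iic K', fi y = φ.symm y)
    (h1 : ∀ a : P.Face ≃o P.Face, a K = K →
      ∃ b : P.Face ≃o P.Face, ∀ x, x ≤ K → b (f x) = f (a x))
    (h2 : ∀ b : P.Face ≃o P.Face, b K' = K' →
      ∃ a : P.Face ≃o P.Face, ∀ y, y ≤ K' → a (fi y) = fi (b y)) : Conjugates φ := by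
  intro a
  constructor
  · rintro ⟨g, hg⟩
    obtain ⟨b, hb⟩ := h1 g (face_fixed hg)
    refine ⟨b, fun y => ?_⟩
    have h3 := hb (φ.symm y) (φ.symm y).2
    rw [hf, φ.apply_symm_apply, hg, hf] at h3
    rw [h3]
    rfl
  · rintro ⟨g, hg⟩
    obtain ⟨a', ha'⟩ := h2 g (face_fixed hg)
    refine ⟨a', fun x => ?_⟩
    have h3 := ha' (φ x) (φ x).2
    rw [hfi, φ.symm_apply_apply, hg, hfi] at h3
    rw [h3]
    change ((φ.symm (φ (a (φ.symm (φ x)))) : Set.Iic K) : P.Face) = _
    rw [φ.symm_apply_apply, φ.symm_apply_apply]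

lemma conj_restrict {K K' : P.Face} (c : P.Face ≃o P.Face) {c' : Set.Iic K ≃o Set.Iic K'}
    (hc : ∀ x : Set.Iic K, c x = c' x) (hc' : ∀ y : Set.Iic K', c.symm y = c'.symm y) :
    Conjugates c' := by
  intro a
  constructor
  · rintro ⟨g, hg⟩
    refine ⟨(c.symm.trans g).trans c, fun y => ?_⟩
    rw [OrderIso.trans_apply, OrderIso.trans_apply, hc', hg, hc]
    rfl
  · rintro ⟨g, hg⟩
    refine ⟨(c.trans g).trans c.symm, fun x => ?_⟩
    rw [OrderIso.trans_apply, OrderIso.trans_apply, hc, hg, hc']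
    change ((c'.symm (c' (a (c'.symm (c' x)))) : Set.Iic K) : P.Face) = _
    rw [c'.symm_apply_apply, c'.symm_apply_apply]

lemma Conjugates.trans {K K' K'' : P.Face} {φ : Set.Iic K ≃o Set.Iic K'}
    {ψ : Set.Iic K' ≃o Set.Iic K''} (hφ : Conjugates φ) (hψ : Conjugates ψ) : Conjugates (φ.trans ψ) := by
  intro a
  rw [hφ a, hψ]
  rfl

theorem cond_iff (P : Polytope n) : Cond P ↔
    (∀ K : P.Face, P.rk K = n → NoInvolution K) ∧
    (∀ K K' : P.Face, P.rk K = n → P.rk K' = n → Conjugate K K' → SameOrbit K K') := by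
  constructor
  · intro hc
    constructor
    · intro K hK φ hφ hφ2
      obtain ⟨f, fi, hiso, hf, hfi⟩ := exists_raw φ
      obtain ⟨h1, h2⟩ := conj_raw hf hfi hφ
      have hback : ∀ c : P.Face ≃o P.Face, c K = K →
          ∃ d : P.Face ≃o P.Face, ∀ x, x ≤ K → d x = f (c (f x)) := by
        intro c hcK
        obtain ⟨c', hc', -⟩ := exists_restrict c hcK
        obtain ⟨b, hb⟩ := (hφ c').mp ⟨c, hc'⟩
        obtain ⟨d, hd⟩ := hφ2
        refine ⟨d.trans b, fun x hx => ?_⟩
        have h5 : d x = ((φ (φ ⟨x, hx⟩) : Set.Iic K) : P.Face) := hd ⟨x, hx⟩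
        have h6 : f x = φ ⟨x, hx⟩ := hf ⟨x, hx⟩
        rw [OrderIso.trans_apply, h5, hb, h6, hc', hf]
        change ((φ (c' (φ.symm (φ (φ ⟨x, hx⟩)))) : Set.Iic K) : P.Face) = _
        rw [φ.symm_apply_apply]
      obtain ⟨a, ha⟩ := hc K K f fi hK ⟨hiso, h1, h2, hback⟩
      refine ⟨a, fun x => ?_⟩
      rw [ha x x.2, hf]
    · rintro K K' hK hK' ⟨φ, hφ⟩
      by_contra hne
      obtain ⟨f, fi, hiso, hf, hfi⟩ := exists_raw φ
      obtain ⟨h1, h2⟩ := conj_raw hf hfi hφ
      obtain ⟨a, ha⟩ := hc K K' f fi hK ⟨hiso, h1, h2, fun c hcK =>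
        (hne ⟨c.symm, by rw [← hcK, c.symm_apply_apply]⟩).elim⟩
      exact hne ⟨a, by rw [ha K le_rfl, hiso.f_top]⟩
  · rintro ⟨ha, hb⟩ K K' f fi hK hex
    have hK' : P.rk K' = n := by rw [hex.iso.rk_eq, hK]
    obtain ⟨φ, hf, hfi⟩ := exists_iso hex.iso
    have hconj : Conjugates φ := raw_conj hf hfi hex.conj hex.conj'
    obtain ⟨g, hg⟩ := hb K K' hK hK' ⟨φ, hconj⟩
    have hc : g.symm K' = K := by rw [← hg, g.symm_apply_apply]
    obtain ⟨c', hc1, hc2⟩ := exists_restrict g.symm hc
    have hψ : Conjugates (φ.trans c') := hconj.trans (conj_restrict g.symm hc1 hc2)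
    have hψ2 : Induced ((φ.trans c').trans (φ.trans c')) := by
      obtain ⟨d, hd⟩ := hex.back g.symm hc
      refine ⟨d.trans g.symm, fun x => ?_⟩
      change g.symm (d x) = ((c' (φ (c' (φ x))) : Set.Iic K) : P.Face)
      rw [hd x x.2, hf, hc1, hf, hc1]
    obtain ⟨h, hh⟩ := ha K hK _ hψ hψ2
    refine ⟨h.trans g, fun x hx => ?_⟩
    have h1 : h x = ((c' (φ ⟨x, hx⟩) : Set.Iic K) : P.Face) := hh ⟨x, hx⟩
    have h2 : f x = φ ⟨x, hx⟩ := hf ⟨x, hx⟩
    rw [OrderIso.trans_apply, h1, h2, ← hc1, g.apply_symm_apply]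

end groups

/-- Characterisation of the pairs `(k, P)` admitting a universal `k`-orbit extension. Let `P` be a
`k`-orbit polytope of rank `n`, and for a facet `K` of `P` let `Γ_K` be the group of automorphisms
of `K` induced by automorphisms of `P`. Then `P` has a universal `k`-orbit extension if and only if
(1) for every facet `K`, the group `N(Γ_K) / Γ_K` has no element of order two, where `N(Γ_K)` is
the normaliser of `Γ_K` in the full automorphism group of `K`; and
(2) whenever some isomorphism between facets `K`, `K'` conjugates `Γ_K` onto `Γ_K'`, some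
automorphism of `P` maps `K` to `K'`. -/
theorem result (n k : ℕ) (P : Polytope n) (hP : IsKOrbit k P) :
    (∃ U : Polytope (n + 1), IsUniversalKOrbitExtension k P U) ↔
      (∀ K : P.Face, P.rk K = n → NoInvolution K) ∧
      (∀ K K' : P.Face, P.rk K = n → P.rk K' = n → Conjugate K K' → SameOrbit K K') :=
  (universal_iff_cond hP).trans (cond_iff P)

end Pool.Agent.Results.MP_1465e7_co.UniversalExtension
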